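import Pool.Agent.ROr14.Core

/-!
# The Borel–Cantelli argument
-/

set_option autoImplicit false

namespace Pool.Agent.ROr14

open MeasureTheory ProbabilityTheory Set N487b59b3 Filter

theorem real_upper (m k : ℕ) :
    ((1 : ℝ) - (2⁻¹) ^ m) ^ (k * 2 ^ m) ≤ Real.exp (-k) := by
  have h0 : (0 : ℝ) ≤ 1 - (2⁻¹) ^ m := by
    have : ((2 : ℝ)⁻¹) ^ m ≤ 1 := pow_le_one₀ (by norm_num) (by norm_num)
    linarith
  have h1 : (1 : ℝ) - (2⁻¹) ^ m ≤ Real.exp (-(2⁻¹) ^ m) := by
    have := Real.add_one_le_exp (-(2⁻¹ : ℝ) ^ m)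
    linarith
  calc ((1 : ℝ) - (2⁻¹) ^ m) ^ (k * 2 ^ m) ≤ (Real.exp (-(2⁻¹) ^ m)) ^ (k * 2 ^ m) :=
        pow_le_pow_left₀ h0 h1 _
    _ = Real.exp (-k) := by
        rw [← Real.exp_nat_mul]
        congr 1
        push_cast
        rw [inv_pow]
        field_simp

theorem real_lower {m k : ℕ} (hk : k + 1 ≤ 2 ^ m) (hm : 1 ≤ m) :
    Real.exp (-(k + 1)) ≤ ((1 : ℝ) - (2⁻¹) ^ m) ^ (k * 2 ^ m) := by
  have hx : ((2 : ℝ)⁻¹) ^ m ≤ 2⁻¹ := by
    calc ((2 : ℝ)⁻¹) ^ m ≤ (2⁻¹) ^ 1 := pow_le_pow_of_le_one (by norm_num) (by norm_num) hm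
      _ = 2⁻¹ := pow_one _
  have hy : (2 : ℝ) ^ m * (2⁻¹) ^ m = 1 := by
    rw [← mul_pow]
    norm_num
  set x : ℝ := (2⁻¹) ^ m with hxdef
  have hx0 : 0 < x := by positivity
  have h1x : 0 < 1 - x := by linarith
  have h1 : Real.exp (-(x / (1 - x))) ≤ 1 - x := by
    rw [Real.exp_neg]
    have h2 := Real.add_one_le_exp (x / (1 - x))
    have h3 : x / (1 - x) + 1 = (1 - x)⁻¹ := by field_simp; ring
    rw [h3] at h2
    calc (Real.exp (x / (1 - x)))⁻¹ ≤ ((1 - x)⁻¹)⁻¹ := inv_anti₀ (by positivity) h2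
      _ = 1 - x := inv_inv _
  calc Real.exp (-(k + 1)) ≤ Real.exp (((k * 2 ^ m : ℕ) : ℝ) * -(x / (1 - x))) := by
        apply Real.exp_le_exp.2
        have h4 : ((k * 2 ^ m : ℕ) : ℝ) * (x / (1 - x)) = k / (1 - x) := by
          push_cast
          rw [mul_div_assoc', mul_assoc, hy, mul_one]
        rw [mul_neg, h4]
        have h5 : (k : ℝ) / (1 - x) ≤ k + 1 := by
          rw [div_le_iff₀ h1x]
          have h6 : ((k : ℝ) + 1) * x ≤ 1 := by
            have h7 : ((k : ℝ) + 1) ≤ 2 ^ m := by exact_mod_cast hk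
            calc ((k : ℝ) + 1) * x ≤ 2 ^ m * x := by gcongr
              _ = 1 := hy
          nlinarith
        linarith
    _ = (Real.exp (-(x / (1 - x)))) ^ (k * 2 ^ m) := by rw [Real.exp_nat_mul]
    _ ≤ (1 - x) ^ (k * 2 ^ m) := pow_le_pow_left₀ (Real.exp_pos _).le h1 _

theorem measure_D_eq (n k : ℕ) :
    randomOracle (D n k) = ENNReal.ofReal (((1 : ℝ) - (2⁻¹) ^ (n * n)) ^ (k * 2 ^ (n * n))) := by
  have h0 : (0 : ℝ) ≤ 1 - (2⁻¹) ^ (n * n) := by
    have : ((2 : ℝ)⁻¹) ^ (n * n) ≤ 1 := pow_le_one₀ (by norm_num) (by norm_num)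
    linarith
  rw [measure_D, ENNReal.ofReal_pow h0, ENNReal.ofReal_sub _ (by positivity),
    ENNReal.ofReal_pow (by norm_num), ENNReal.ofReal_inv_of_pos (by norm_num)]
  norm_num

theorem measure_D_le (n k : ℕ) : randomOracle (D n k) ≤ ENNReal.ofReal (Real.exp (-k)) := by
  rw [measure_D_eq]
  exact ENNReal.ofReal_le_ofReal (real_upper _ _)

theorem lt_two_pow_sq {n : ℕ} (hn : 1 ≤ n) : n + 1 ≤ 2 ^ (n * n) :=
  (Nat.lt_two_pow_self (n := n)).trans_le (Nat.pow_le_pow_right (by norm_num)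
    (Nat.le_mul_of_pos_left n hn))

/-- Comparison of the failure probabilities at different scales. -/
theorem measure_D_far {n k N : ℕ} (hk : 1 ≤ k) (hkn : k ≤ n) :
    randomOracle (D N (k - 1)) ≤ ENNReal.ofReal (Real.exp 2) * randomOracle (D n k) := by
  refine (measure_D_le N (k - 1)).trans ?_
  rw [measure_D_eq, ← ENNReal.ofReal_mul (Real.exp_pos 2).le]
  apply ENNReal.ofReal_le_ofReal
  have h1 : k + 1 ≤ 2 ^ (n * n) := le_trans (by omega) (lt_two_pow_sq (hk.trans hkn))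
  have h2 := real_lower h1 (Nat.mul_pos (hk.trans hkn) (hk.trans hkn))
  calc Real.exp (-((k - 1 : ℕ) : ℝ)) = Real.exp 2 * Real.exp (-(k + 1)) := by
        rw [← Real.exp_add]
        congr 1
        push_cast [Nat.cast_sub hk]
        ring
    _ ≤ _ := by gcongr

theorem crd_length (n : ℕ) (c : ℕ × List Bool) (b : ℕ) : n ≤ (crd n c b).length := by
  have h1 : ∀ l : List Bool, (bitEncode l : List Bool).length = 3 * l.length := by
    intro l
    change (((l.map bitEncode).map delimit).flatten).length = _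
    induction l with
    | nil => rfl
    | cons a l ih =>
      rw [List.map_cons, List.map_cons, List.flatten_cons, List.length_append, ih,
        List.length_cons, length_delimit]
      change 2 * ([a] : List Bool).length + 1 + _ = _
      simp only [List.length_singleton]
      ring
  have h2 : ∀ p : List Bool × List Bool, (bitEncode p : List Bool).length =
      6 * p.1.length + 1 + 3 * p.2.length := by
    intro p
    change (delimit (bitEncode p.1) ++ bitEncode p.2).length = _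
    rw [List.length_append, length_delimit, h1, h1]
    ring
  change n ≤ (delimit (bitEncode (ones n, ones c.1)) ++ bitEncode (ones b, c.2)).length
  rw [List.length_append, length_delimit, h2, h2]
  simp only [List.length_replicate]
  omega

namespace Stage

variable (S : Stage)

theorem dep_D {n k : ℕ} : Dep ((cand n k).biUnion (blk n)) (D n k) := by
  intro R R' h hR hB
  refine hR ?_
  obtain ⟨c, hc, hs⟩ := hB
  exact ⟨c, hc, fun z hz => by rw [h z (Finset.mem_biUnion.2 ⟨c, hc, hz⟩)]; exact hs z hz⟩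

/-- The first inconsistency is at scale `n`. -/
def U (n : ℕ) : Set (List Bool → Bool) := ⋃ k ∈ Finset.range (n + 1), (S.W n k ∩ D n k)

theorem U_disjoint : Pairwise (Function.onFun Disjoint S.U) := by
  have key : ∀ m n, m < n → Disjoint (S.U m) (S.U n) := by
    intro m n hmn
    rw [Set.disjoint_left]
    intro R hR hR'
    obtain ⟨k, _, hk⟩ := mem_iUnion₂.1 hR
    obtain ⟨l, _, hl⟩ := mem_iUnion₂.1 hR'
    exact hk.2 (hl.1.1 m hmn k hk.1.2)
  intro m n hmn
  rcases lt_or_gt_of_ne hmn with h | h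
  · exact key m n h
  · exact (key n m h).symm

theorem WD_measurable (n k : ℕ) : MeasurableSet (S.W n k ∩ D n k) :=
  (S.dep_W n k).measurableSet.inter dep_D.measurableSet

theorem U_measurable (n : ℕ) : MeasurableSet (S.U n) :=
  Finset.measurableSet_biUnion _ fun k _ => S.WD_measurable n k

theorem tsum_U_le : ∑' n, randomOracle (S.U n) ≤ 1 := by
  rw [← measure_iUnion S.U_disjoint S.U_measurable]
  exact prob_le_one

theorem sum_WD (n : ℕ) :
    ∑ k ∈ Finset.range (n + 1), randomOracle (S.W n k ∩ D n k) = randomOracle (S.U n) := by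
  rw [U, measure_biUnion_finset]
  · intro k _ l _ hkl
    rw [Function.onFun, Set.disjoint_left]
    rintro R ⟨h, _⟩ ⟨h', _⟩
    exact hkl (Option.some.inj (h.2.symm.trans h'.2))
  · exact fun k _ => S.WD_measurable n k

/-- The new machine fails at scale `2^(n^2)`. -/
def V (n : ℕ) : Set (List Bool → Bool) :=
  ⋃ k ∈ Finset.Icc 1 n, (S.W n k ∩ D (2 ^ (n * n)) (k - 1))

theorem far {n : ℕ} (hn : 1 ≤ n)
    (hl : ∀ m ≤ n, ∀ a : List Bool, a.length < S.M m → (S.s m a).length < 2 ^ (n * n)) (k l : ℕ) :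
    randomOracle (S.W n k ∩ D (2 ^ (n * n)) l) =
      randomOracle (S.W n k) * randomOracle (D (2 ^ (n * n)) l) := by
  refine (S.dep_W n k).indep dep_D ?_
  rw [Finset.disjoint_biUnion_right]
  intro c _
  rw [Finset.disjoint_union_left]
  constructor
  · rw [Finset.disjoint_left]
    intro z hz hz'
    obtain ⟨b, _, hb⟩ := mem_blk.1 hz'
    have h1 := crd_length (2 ^ (n * n)) c b
    rw [hb] at h1
    obtain ⟨m, hm, hz⟩ := Finset.mem_biUnion.1 hz
    obtain ⟨j, hj, hz⟩ := Finset.mem_biUnion.1 hz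
    obtain ⟨u, _, hz⟩ := Finset.mem_image.1 hz
    have h2 := hl m (by have := Finset.mem_range.1 hm; omega) (List.ofFn u)
      (by rw [List.length_ofFn]; exact Finset.mem_range.1 hj)
    cases hw : S.c (S.s m (List.ofFn u)) with
    | none =>
      rw [hw] at hz
      have h3 : z = [] := hz.symm
      rw [h3, List.length_nil] at h1
      omega
    | some z' =>
      rw [hw] at hz
      have h3 : z' = z := hz
      have h4 := S.hc _ _ hw
      rw [h3] at h4
      omega
  · unfold Bl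
    rw [Finset.disjoint_biUnion_left]
    intro m hm
    rw [Finset.disjoint_biUnion_left]
    intro c' _
    refine blk_disjoint fun h => ?_
    have h1 := Finset.mem_range.1 hm
    have h2 := lt_two_pow_sq hn
    omega

theorem V_le {n : ℕ} (hn : 1 ≤ n)
    (hl : ∀ m ≤ n, ∀ a : List Bool, a.length < S.M m → (S.s m a).length < 2 ^ (n * n))
    (hQ : (n + 1) * S.Q n * 2 ^ n ≤ 2 ^ (n * n)) :
    randomOracle (S.V n) ≤
      ENNReal.ofReal (Real.exp 2) * (randomOracle (S.U n) + (2⁻¹ : ENNReal) ^ n) := by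
  have h1 : ∀ k ∈ Finset.Icc 1 n, randomOracle (S.W n k ∩ D (2 ^ (n * n)) (k - 1)) ≤
      ENNReal.ofReal (Real.exp 2) * (randomOracle (S.W n k ∩ D n k) +
        S.Q n * (2⁻¹ : ENNReal) ^ (n * n)) := by
    intro k hk
    rw [Finset.mem_Icc] at hk
    rw [S.far hn hl]
    calc randomOracle (S.W n k) * randomOracle (D (2 ^ (n * n)) (k - 1))
        ≤ randomOracle (S.W n k) * (ENNReal.ofReal (Real.exp 2) * randomOracle (D n k)) := by
          gcongr
          exact measure_D_far hk.1 hk.2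
      _ = ENNReal.ofReal (Real.exp 2) * (randomOracle (S.W n k) * randomOracle (D n k)) := by ring
      _ ≤ _ := by
          gcongr
          exact S.main_le hk.2
  have h2 : (n : ENNReal) * (S.Q n * (2⁻¹ : ENNReal) ^ (n * n)) ≤ (2⁻¹ : ENNReal) ^ n := by
    have h3 : ((n * S.Q n * 2 ^ n : ℕ) : ENNReal) ≤ ((2 ^ (n * n) : ℕ) : ENNReal) := by
      refine Nat.cast_le.2 (le_trans ?_ hQ)
      exact Nat.mul_le_mul_right _ (Nat.mul_le_mul_right _ (by omega))
    push_cast at h3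
    have h4 : (2 : ENNReal) ^ (n * n) * (2⁻¹) ^ (n * n) = 1 := by
      rw [← mul_pow, ENNReal.mul_inv_cancel (by norm_num) (by norm_num), one_pow]
    have h5 : (2 : ENNReal) ^ n * (2⁻¹) ^ n = 1 := by
      rw [← mul_pow, ENNReal.mul_inv_cancel (by norm_num) (by norm_num), one_pow]
    calc (n : ENNReal) * (S.Q n * (2⁻¹ : ENNReal) ^ (n * n))
        = (n * S.Q n * 1) * (2⁻¹ : ENNReal) ^ (n * n) := by ring
      _ = (n * S.Q n * 2 ^ n) * (2⁻¹ : ENNReal) ^ (n * n) * (2⁻¹) ^ n := by rw [← h5]; ring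
      _ ≤ 2 ^ (n * n) * (2⁻¹ : ENNReal) ^ (n * n) * (2⁻¹) ^ n := by gcongr
      _ = (2⁻¹) ^ n := by rw [h4, one_mul]
  calc randomOracle (S.V n)
      ≤ ∑ k ∈ Finset.Icc 1 n, randomOracle (S.W n k ∩ D (2 ^ (n * n)) (k - 1)) :=
        measure_biUnion_finset_le _ _
    _ ≤ ∑ k ∈ Finset.Icc 1 n, ENNReal.ofReal (Real.exp 2) * (randomOracle (S.W n k ∩ D n k) +
          S.Q n * (2⁻¹ : ENNReal) ^ (n * n)) := Finset.sum_le_sum h1
    _ = ENNReal.ofReal (Real.exp 2) * ((∑ k ∈ Finset.Icc 1 n, randomOracle (S.W n k ∩ D n k)) +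
          n * (S.Q n * (2⁻¹ : ENNReal) ^ (n * n))) := by
        rw [← Finset.mul_sum, Finset.sum_add_distrib, Finset.sum_const, Nat.card_Icc,
          nsmul_eq_mul, Nat.add_sub_cancel]
    _ ≤ _ := by
        gcongr
        rw [← S.sum_WD]
        refine Finset.sum_le_sum_of_subset fun k hk => ?_
        rw [Finset.mem_Icc] at hk
        exact Finset.mem_range.2 (by omega)

theorem tsum_V_lt (n1 : ℕ)
    (hl : ∀ n ≥ n1, ∀ m ≤ n, ∀ a : List Bool, a.length < S.M m →
      (S.s m a).length < 2 ^ (n * n))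
    (hQ : ∀ n ≥ n1, (n + 1) * S.Q n * 2 ^ n ≤ 2 ^ (n * n)) :
    ∑' n, randomOracle (S.V (n + (n1 + 1))) ≠ ⊤ := by
  have h1 : ∀ n, randomOracle (S.V (n + (n1 + 1))) ≤ ENNReal.ofReal (Real.exp 2) *
      (randomOracle (S.U (n + (n1 + 1))) + (2⁻¹ : ENNReal) ^ n) := by
    intro n
    refine (S.V_le (by omega) (hl _ (by omega)) (hQ _ (by omega))).trans ?_
    refine mul_le_mul_right (add_le_add_right ?_ _) _
    exact pow_le_pow_right_of_le_one' (a := (2⁻¹ : ENNReal)) (n := n) (m := n + (n1 + 1))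
      (ENNReal.inv_le_one.2 (by norm_num)) (by omega)
  refine ne_top_of_le_ne_top ?_ (ENNReal.tsum_le_tsum h1)
  rw [ENNReal.tsum_mul_left, ENNReal.tsum_add]
  refine ENNReal.mul_ne_top ENNReal.ofReal_ne_top (ENNReal.add_ne_top.2 ⟨?_, ?_⟩)
  · refine ne_top_of_le_ne_top ENNReal.one_ne_top (le_trans ?_ S.tsum_U_le)
    exact ENNReal.tsum_comp_le_tsum_of_injective (f := fun n => n + (n1 + 1))
      (fun a b h => by simpa using h) (fun n => randomOracle (S.U n))
  · rw [ENNReal.tsum_geometric]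
    norm_num

theorem tsum_D_lt : ∑' n, randomOracle (D n n) ≠ ⊤ := by
  have h1 : ∀ n : ℕ, randomOracle (D n n) ≤ (ENNReal.ofReal (Real.exp (-1))) ^ n := by
    intro n
    refine (measure_D_le n n).trans ?_
    rw [← ENNReal.ofReal_pow (Real.exp_pos _).le, ← Real.exp_nat_mul]
    apply ENNReal.ofReal_le_ofReal
    apply le_of_eq
    congr 1
    ring
  refine ne_top_of_le_ne_top ?_ (ENNReal.tsum_le_tsum h1)
  rw [ENNReal.tsum_geometric]
  refine ENNReal.inv_ne_top.2 (tsub_pos_of_lt ?_).ne'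
  rw [← ENNReal.ofReal_one]
  exact (ENNReal.ofReal_lt_ofReal_iff one_pos).2 (by
    rw [Real.exp_lt_one_iff]
    norm_num)

/-- Almost surely, if all results are consistent then the slightly bolder guesses at the next
scale are eventually right. -/
theorem ae_good (n1 : ℕ)
    (hl : ∀ n ≥ n1, ∀ m ≤ n, ∀ a : List Bool, a.length < S.M m →
      (S.s m a).length < 2 ^ (n * n))
    (hQ : ∀ n ≥ n1, (n + 1) * S.Q n * 2 ^ n ≤ 2 ^ (n * n)) :
    ∀ᵐ R ∂randomOracle, (∀ n k, S.θ n R = some k → inB n k R) →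
      ∃ n0, ∀ n ≥ n0, (∀ k, S.θ n R = some k → inB (2 ^ (n * n)) (k - 1) R) ∧ inB n n R := by
  have h1 := ae_eventually_notMem (S.tsum_V_lt n1 hl hQ)
  have h2 := ae_eventually_notMem tsum_D_lt
  filter_upwards [h1, h2] with R h1 h2 hR
  obtain ⟨a, ha⟩ := eventually_atTop.1 h1
  obtain ⟨b, hb⟩ := eventually_atTop.1 h2
  refine ⟨a + b + n1 + 1, fun n hn => ⟨fun k hk => ?_, ?_⟩⟩
  · by_contra hB
    have hk0 : 1 ≤ k := by
      rcases Nat.eq_zero_or_pos k with rfl | h
      · exact absurd (hR n 0 hk) (not_inB_zero n R)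
      · exact h
    have h3 := ha (n - (n1 + 1)) (by omega)
    rw [Nat.sub_add_cancel (by omega)] at h3
    exact h3 (mem_iUnion₂.2 ⟨k, Finset.mem_Icc.2 ⟨hk0, S.ht n _ k hk⟩,
      ⟨fun m _ l hl => hR m l hl, hk⟩, hB⟩)
  · have h3 := hb n (by omega)
    by_contra hB
    exact h3 hB

end Stage

end Pool.Agent.ROr14
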