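import Pool.Agent.ROr14.Calc
import Pool.Agent.ROr14.Sum

/-!
# The machines of the proof
-/

set_option autoImplicit false

namespace Pool.Agent.ROr14

open Pool.Agent.PT Pool.Agent.TMB67 Pool.Agent.POpt67 Pool.Agent.POpt70
open N68a2faeb N793a5b8e N487b59b3

section bridge

variable {α β : Type} [N487b59b3 α] [N487b59b3 β] [Enc α] [Enc β] [Compat α] [Compat β]

theorem IsPolyTimeOracle.exists_UT {X : List Bool → Bool} {f : α → β}
    (h : IsPolyTimeOracle X f) : ∃ F : (List Bool → Bool) → α → β, UT F ∧ F X = f := by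
  obtain ⟨p, q, g, hq, hg, hf⟩ := h
  obtain ⟨r, hr⟩ := exists_enc_bound (α := α)
  refine ⟨fun X x => g (x, answers X q x (p.eval (bitEncode x).length)),
    ⟨p.comp r, q, fun z => g (z.1, z.2.take (p.eval (bitEncode z.1).length)),
      isPolyTime_iff.1 hq, (isPolyTime_iff.1 hg).comp (PolyTime.pair PolyTime.fst' (PolyTime.take
        (polyEval_length p ((Compat.enc (α := α)).comp PolyTime.fst')) PolyTime.snd')),
      fun X x m hm => ?_⟩, funext fun x => (hf x).symm⟩
  beta_reduce
  rw [answers_take]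
  rw [Polynomial.eval_comp] at hm
  exact (eval_mono p (hr x)).trans hm

theorem UT.isPolyTimeOracle {F : (List Bool → Bool) → α → β} (hF : UT F)
    (X : List Bool → Bool) : IsPolyTimeOracle X (F X) := by
  obtain ⟨p, q, g, hq, hg, hF⟩ := hF
  obtain ⟨r, hr⟩ := exists_sz_bound (α := α)
  refine ⟨p.comp r, q, g, isPolyTime_iff.2 hq, isPolyTime_iff.2 hg, fun x => ?_⟩
  rw [Polynomial.eval_comp]
  exact hF X x _ (eval_mono p (hr x))

end bridge

/-! ### The universal oracle machine -/

/-- Input of the machines: a string and a padding. -/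
abbrev In := List Bool × List Bool

/-- The universal oracle machine: programs `e.1`, `e.2` for the questions and the value,
`N` questions and clock `t`. -/
noncomputable def UM (X : List Bool → Bool) (z : (ℕ × ℕ) × (ℕ × ℕ) × In) : List Bool :=
  uni (cmdOf z.1.2) z.2.1.2 (bitEncode (z.2.2, answers X
    (fun y : In × List Bool => uni (cmdOf z.1.1) z.2.1.2 (bitEncode y)) z.2.2 z.2.1.1))

theorem UM_UT : UT UM := by
  have henc : ∀ {α : Type} [Enc α] {f : α → In × List Bool}, PolyTime f →
      PolyTime (fun x => (bitEncode (f x) : List Bool)) := fun {α} _ {f} hf =>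
    (Compat.enc (α := In × List Bool)).comp hf
  have huni : ∀ {α : Type} [Enc α] {e t : α → ℕ} {w : α → List Bool}, PolyTime e → PolyTime t →
      PolyTime w → PolyTime (fun x => uni (cmdOf (e x)) (t x) (w x)) := by
    intro α _ e t w he ht hw
    exact uni_polyTime.comp (f := fun x => (cmdOf (e x), t x, w x))
      (PolyTime.pair (cmdOf_polyTime.comp he) (PolyTime.pair ht hw))
  refine ⟨Polynomial.X, fun y => uni (cmdOf y.1.1.1) y.1.2.1.2 (bitEncode (y.1.2.2, y.2)),
    fun y => uni (cmdOf y.1.1.2) y.1.2.1.2 (bitEncode (y.1.2.2, y.2.take y.1.2.1.1)),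
    huni (by fun_prop) (by fun_prop) (henc (by fun_prop)),
    huni (by fun_prop) (by fun_prop) (henc ?_), fun X z m h => ?_⟩
  · exact PolyTime.pair (by fun_prop) (PolyTime.take (by fun_prop) (by fun_prop))
  · rw [Polynomial.eval_X] at h
    have h1 : z.2.1.1 ≤ m := by
      simp only [sz_prod, sz_nat] at h
      omega
    have h2 := answers_shift X (fun y : In × List Bool => uni (cmdOf z.1.1) z.2.1.2 (bitEncode y))
      (fun y : ((ℕ × ℕ) × (ℕ × ℕ) × In) × List Bool =>
        uni (cmdOf y.1.1.1) y.1.2.1.2 (bitEncode (y.1.2.2, y.2))) z.2.2 z 0 m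
      (fun j _ => by simp [answers]) m le_rfl
    simp only [answers, List.nil_append, Nat.zero_add] at h2
    beta_reduce
    rw [h2, answers_take _ _ _ h1]
    rfl

theorem UM_spec {F : (List Bool → Bool) → In → List Bool} (hF : UT F) :
    ∃ (e : ℕ × ℕ) (Q : Polynomial ℕ), ∀ X x N t, Q.eval (sz x) ≤ N → Q.eval (sz x + N) ≤ t →
      UM X (e, (N, t), x) = F X x := by
  obtain ⟨p, q, g, hq, hg, hF⟩ := hF
  obtain ⟨D, hD, hD'⟩ := Compat.dec (α := In × List Bool)
  obtain ⟨p1, Q1, h1⟩ := uni_spec (hq.comp hD)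
  obtain ⟨p2, Q2, h2⟩ := uni_spec (hg.comp hD)
  obtain ⟨e1, he1⟩ := cmdOf_surjective p1
  obtain ⟨e2, he2⟩ := cmdOf_surjective p2
  obtain ⟨r, hr⟩ := exists_enc_bound (α := In × List Bool)
  refine ⟨(e1, e2), p + (Q1 + Q2).comp (r.comp (4 * Polynomial.X + 2)), fun X x N t hN ht => ?_⟩
  rw [Polynomial.eval_add] at hN ht
  have hlen : ∀ a : List Bool, a.length ≤ N →
      (bitEncode ((x, a) : In × List Bool)).length ≤ (r.comp (4 * Polynomial.X + 2)).eval
        (sz x + N) := by
    intro a ha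
    refine (hr _).trans ?_
    rw [Polynomial.eval_comp]
    refine eval_mono r ?_
    rw [sz_prod]
    have := sz_listBool a
    simp only [Polynomial.eval_add, Polynomial.eval_X, Polynomial.eval_mul, Polynomial.eval_ofNat]
    omega
  have ht' : (Q1 + Q2).eval ((r.comp (4 * Polynomial.X + 2)).eval (sz x + N)) ≤ t := by
    rw [Polynomial.eval_comp (q := r.comp (4 * Polynomial.X + 2))] at ht
    omega
  rw [Polynomial.eval_add] at ht'
  have hans : answers X (fun y : In × List Bool => uni (cmdOf e1) t (bitEncode y)) x N =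
      answers X q x N := by
    have := answers_shift X q (fun y : In × List Bool => uni (cmdOf e1) t (bitEncode y)) x x 0 N
      (fun j hj => by
        simp only [answers, List.nil_append]
        rw [he1, h1 _ t, hD']
        have h3 := eval_mono Q1 (hlen (answers X q x j) (by rw [answers_length]; omega))
        omega) N le_rfl
    simpa [answers] using this
  unfold UM
  simp only
  rw [hans, he2, h2 _ t, hD', hF X x N (by omega)]
  have h3 := eval_mono Q2 (hlen (answers X q x N) (by rw [answers_length]))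
  omega

/-! ### The least proved value -/

section theta

variable (FP Fr : (List Bool → Bool) → List Bool → List Bool)

/-- The instance `(n, k)`. -/
def cd (n k : ℕ) : List Bool := bitEncode (ones n, ones k)

theorem cd_polyTime {α : Type} [Enc α] {f g : α → ℕ} (hf : PolyTime f) (hg : PolyTime g) :
    PolyTime (fun x => cd (f x) (g x)) := by
  unfold cd ones
  exact (Compat.enc (α := List Bool × List Bool)).comp (PolyTime.pair
    (PolyTime.replicate hf (PolyTime.const true)) (PolyTime.replicate hg (PolyTime.const true)))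

/-- The input `1 1^n` with padding `1^v`. -/
def inp (n v : ℕ) : In := (true :: ones n, ones v)

/-- The outputs of `FP` on the results of all small machines. -/
noncomputable def outs (X : List Bool → Bool) (z : ℕ × (ℕ × ℕ) × ℕ) : List (List Bool) :=
  ((List.range z.1).product (List.range z.1)).map fun e => FP X (UM X (e, z.2.1, inp z.1 z.2.2))

/-- The instances `(n, k)` with `k ≤ n`. -/
def insts (X : List Bool → Bool) (z : ℕ × (ℕ × ℕ) × ℕ) : List (List Bool) :=
  (List.range (z.1 + 1)).map fun k => Fr X (cd z.1 k)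

/-- The least `k ≤ n` such that a small machine produces an `FP`-proof of the instance
`(n, k)`. -/
noncomputable def Θ (X : List Bool → Bool) (z : ℕ × (ℕ × ℕ) × ℕ) : Option ℕ :=
  (List.range (z.1 + 1)).find? fun k => decide ((insts Fr X z).getD k [] ∈ outs FP X z)

variable {FP Fr}

theorem outs_UT (hP : UT FP) : UT (outs FP) := by
  have h1 : UT (fun X (y : (ℕ × (ℕ × ℕ) × ℕ) × (ℕ × ℕ)) =>
      FP X (UM X (y.2, y.1.2.1, inp y.1.1 y.1.2.2))) := by
    refine hP.comp (UM_UT.pre (g := fun y : (ℕ × (ℕ × ℕ) × ℕ) × (ℕ × ℕ) =>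
      (y.2, y.1.2.1, inp y.1.1 y.1.2.2)) ?_)
    unfold inp ones
    refine PolyTime.pair (by fun_prop) (PolyTime.pair (by fun_prop) (PolyTime.pair
      (PolyTime.cons (by fun_prop) (PolyTime.replicate (by fun_prop) (by fun_prop)))
      (PolyTime.replicate (by fun_prop) (by fun_prop))))
  exact UT.map (l := fun z : ℕ × (ℕ × ℕ) × ℕ => (List.range z.1).product (List.range z.1))
    (PolyTime.product (PolyTime.range (by fun_prop)) (PolyTime.range (by fun_prop))) h1

theorem insts_UT (hr : UT Fr) : UT (insts Fr) := by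
  have h1 : UT (fun X (y : (ℕ × (ℕ × ℕ) × ℕ) × ℕ) => Fr X (cd y.1.1 y.2)) :=
    hr.pre (g := fun y : (ℕ × (ℕ × ℕ) × ℕ) × ℕ => cd y.1.1 y.2)
      (cd_polyTime (by fun_prop) (by fun_prop))
  exact UT.map (l := fun z : ℕ × (ℕ × ℕ) × ℕ => List.range (z.1 + 1))
    (PolyTime.range (by fun_prop)) h1

theorem Θ_UT (hP : UT FP) (hr : UT Fr) : UT (Θ FP Fr) := by
  have h1 : UT (fun X (z : ℕ × (ℕ × ℕ) × ℕ) => (z, insts Fr X z, outs FP X z)) :=
    (UT.of (f := fun z : ℕ × (ℕ × ℕ) × ℕ => z) (by fun_prop)).pair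
      ((insts_UT hr).pair (outs_UT hP))
  refine h1.post (g := fun y : (ℕ × (ℕ × ℕ) × ℕ) × List (List Bool) × List (List Bool) =>
    (List.range (y.1.1 + 1)).find? fun k => decide (y.2.1.getD k [] ∈ y.2.2)) ?_
  refine PolyTime.find? (PolyTime.range (by fun_prop)) (g := fun
    (y : (ℕ × (ℕ × ℕ) × ℕ) × List (List Bool) × List (List Bool)) (k : ℕ) =>
      decide (y.2.1.getD k [] ∈ y.2.2)) ?_
  have h2 : PolyTime (fun p : ((ℕ × (ℕ × ℕ) × ℕ) × List (List Bool) × List (List Bool)) × ℕ =>
      p.1.2.1.getD p.2 []) :=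
    PolyTime.getD (by fun_prop) (by fun_prop) (by fun_prop)
  have h3 : PolyTime (fun p : ((ℕ × (ℕ × ℕ) × ℕ) × List (List Bool) × List (List Bool)) × ℕ =>
      p.1.2.2) := by fun_prop
  exact (PolyTime.decide_mem h2 h3).congr fun x => decide_eq_decide.2 Iff.rfl

theorem insts_getD (X : List Bool → Bool) (z : ℕ × (ℕ × ℕ) × ℕ) {k : ℕ} (hk : k < z.1 + 1) :
    (insts Fr X z).getD k [] = Fr X (cd z.1 k) := by
  rw [insts, List.getD_eq_getElem?_getD, List.getElem?_map, List.getElem?_range hk]
  rfl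

theorem mem_outs {X : List Bool → Bool} {z : ℕ × (ℕ × ℕ) × ℕ} {y : List Bool} :
    y ∈ outs FP X z ↔ ∃ e : ℕ × ℕ, e.1 < z.1 ∧ e.2 < z.1 ∧
      FP X (UM X (e, z.2.1, inp z.1 z.2.2)) = y := by
  rw [outs, List.mem_map]
  refine exists_congr fun e => ?_
  rw [List.pair_mem_product, List.mem_range, List.mem_range, and_assoc]

theorem Θ_some {X : List Bool → Bool} {z : ℕ × (ℕ × ℕ) × ℕ} {k : ℕ} (h : Θ FP Fr X z = some k) :
    k ≤ z.1 ∧ ∃ e : ℕ × ℕ, FP X (UM X (e, z.2.1, inp z.1 z.2.2)) = Fr X (cd z.1 k) := by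
  have h1 := List.find?_some h
  have h2 := List.mem_of_find?_eq_some h
  rw [List.mem_range] at h2
  rw [decide_eq_true_iff, insts_getD X z h2, mem_outs] at h1
  obtain ⟨e, _, _, he⟩ := h1
  exact ⟨by omega, e, he⟩

theorem Θ_le {X : List Bool → Bool} {z : ℕ × (ℕ × ℕ) × ℕ} {k : ℕ} (hk : k ≤ z.1)
    {e : ℕ × ℕ} (h1 : e.1 < z.1) (h2 : e.2 < z.1)
    (h : FP X (UM X (e, z.2.1, inp z.1 z.2.2)) = Fr X (cd z.1 k)) :
    ∃ l ≤ k, Θ FP Fr X z = some l := by
  have hk' : decide ((insts Fr X z).getD k [] ∈ outs FP X z) = true := by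
    rw [decide_eq_true_iff, insts_getD X z (by omega), mem_outs]
    exact ⟨e, h1, h2, h⟩
  obtain ⟨l, hl⟩ : ∃ l, Θ FP Fr X z = some l := by
    rw [← Option.isSome_iff_exists, Θ, List.find?_isSome]
    exact ⟨k, List.mem_range.2 (by omega), hk'⟩
  refine ⟨l, ?_, hl⟩
  by_contra hlt
  push Not at hlt
  rw [Θ, List.find?_range_eq_some] at hl
  have := hl.2.2 k hlt
  rw [hk'] at this
  simp at this

end theta

end Pool.Agent.ROr14
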