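import Pool.Prelude.Def_F_458e953d

/-!
# Polynomial time relative to an oracle, and random oracles
-/

set_option autoImplicit false

namespace Pool.Agent.ROr14

open N68a2faeb N793a5b8e N487b59b3 MeasureTheory

/-- The first `m` answers of the oracle `X` in the computation on input `x` whose next question,
when the answers so far are `a`, is `q (x, a)`. -/
def answers (X : List Bool → Bool) {α : Type} (q : α × List Bool → List Bool) (x : α) :
    ℕ → List Bool
  | 0 => []
  | m + 1 => answers X q x m ++ [X (q (x, answers X q x m))]

/-- `f` is computable in polynomial time relative to the oracle `X`: a polynomial-time function `q`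
computes the next question to the oracle from the input and the answers so far, polynomially many
questions are asked, and a polynomial-time function `g` computes the value from the input and
the answers. -/
def IsPolyTimeOracle (X : List Bool → Bool) {α β : Type} [N487b59b3 α] [N487b59b3 β]
    (f : α → β) : Prop :=
  ∃ (p : Polynomial ℕ) (q : α × List Bool → List Bool) (g : α × List Bool → β),
    IsPolyTime q ∧ IsPolyTime g ∧
      ∀ x, f x = g (x, answers X q x (p.eval (bitEncode x).length))

/-- `f` is computable in time `2^O(n)` relative to the oracle `X`: in polynomial time from the
input `x` padded with `2^|x|` ones. -/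
def IsExpTimeOracle (X : List Bool → Bool) (f : List Bool → List Bool) : Prop :=
  ∃ h : List Bool × List Bool → List Bool, IsPolyTimeOracle X h ∧
    ∀ x, f x = h (x, List.replicate (2 ^ x.length) true)

/-- `NP` relative to `X`. -/
def NPOracle (X : List Bool → Bool) : DecisionComplexityClass :=
  { L | ∃ (p : Polynomial ℕ) (R : List Bool × List Bool → Bool), IsPolyTimeOracle X R ∧
      ∀ x, L x ↔ ∃ w : List Bool, w.length ≤ p.eval x.length ∧ R (x, w) }

/-- `L` is hard for `NP` relative to `X`, under many-one reductions computable in polynomial time
relative to `X`. -/
def IsNPHardOracle (X : List Bool → Bool) (L : DecisionProblem) : Prop :=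
  ∀ B ∈ NPOracle X, ∃ f : List Bool → List Bool, IsPolyTimeOracle X f ∧ ∀ x, B x = L (f x)

/-- `P` is a proof system for `L` relative to `X`. -/
def IsProofSystemOracle (X : List Bool → Bool) (L : DecisionProblem)
    (P : List Bool → List Bool) : Prop :=
  IsPolyTimeOracle X P ∧ ∀ y, L y ↔ ∃ π, P π = y

/-- The oracle `A ⊕ R`. -/
def join (A R : List Bool → Bool) : List Bool → Bool
  | [] => false
  | true :: z => R z
  | false :: z => A z

/-- The fair coin. -/
noncomputable def coin : Measure Bool := (PMF.uniformOfFintype Bool).toMeasure

instance : IsProbabilityMeasure coin := by unfold coin; infer_instance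

/-- The distribution of a random oracle: independent fair coins. -/
noncomputable def randomOracle : Measure (List Bool → Bool) := Measure.infinitePi fun _ => coin

instance : IsProbabilityMeasure randomOracle := by unfold randomOracle; infer_instance

end Pool.Agent.ROr14
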