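import Pool.Agent.POpt70.Rel
import Pool.Agent.ROr14.Defs

/-!
# Calculus of polynomial time relative to an arbitrary oracle
-/

set_option autoImplicit false

namespace Pool.Agent.ROr14

open Pool.Agent.PT Pool.Agent.TMB67 Pool.Agent.POpt67 Pool.Agent.POpt70
open N68a2faeb N793a5b8e N487b59b3

theorem answers_length (X : List Bool → Bool) {α : Type} (q : α × List Bool → List Bool) (x : α)
    (m : ℕ) : (answers X q x m).length = m := by
  induction m with
  | zero => rfl
  | succ m ih => simp [answers, ih]

theorem answers_prefix (X : List Bool → Bool) {α : Type} (q : α × List Bool → List Bool) (x : α)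
    (m j : ℕ) : ∃ r, answers X q x (m + j) = answers X q x m ++ r := by
  induction j with
  | zero => exact ⟨[], by simp⟩
  | succ j ih =>
    obtain ⟨r, hr⟩ := ih
    refine ⟨r ++ [X (q (x, answers X q x (m + j)))], ?_⟩
    rw [← Nat.add_assoc, answers, ← List.append_assoc, ← hr]

theorem answers_take (X : List Bool → Bool) {α : Type} (q : α × List Bool → List Bool) (x : α)
    {k m : ℕ} (h : k ≤ m) : (answers X q x m).take k = answers X q x k := by
  obtain ⟨j, rfl⟩ := Nat.exists_eq_add_of_le h
  obtain ⟨r, hr⟩ := answers_prefix X q x k j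
  rw [hr, List.take_left' (answers_length X q x k)]

/-- If the questions of `q'` on `x'`, after the first `m` ones, are those of `q` on `x`. -/
theorem answers_shift (X : List Bool → Bool) {α α' : Type} (q : α × List Bool → List Bool)
    (q' : α' × List Bool → List Bool) (x : α) (x' : α') (m n : ℕ)
    (h : ∀ j < n, q' (x', answers X q' x' m ++ answers X q x j) = q (x, answers X q x j)) :
    ∀ j ≤ n, answers X q' x' (m + j) = answers X q' x' m ++ answers X q x j := by
  intro j hj
  induction j with
  | zero => simp [answers]
  | succ j ih =>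
    have h1 := ih (by omega)
    rw [← Nat.add_assoc, answers, h1, h j (by omega), List.append_assoc]
    rfl

/-- Uniform polynomial time relative to oracles, robust form. -/
def UT {α β : Type} [Enc α] [Enc β] (F : (List Bool → Bool) → α → β) : Prop :=
  ∃ (p : Polynomial ℕ) (q : α × List Bool → List Bool) (g : α × List Bool → β),
    PolyTime q ∧ PolyTime g ∧
      ∀ X x m, p.eval (sz x) ≤ m → F X x = g (x, answers X q x m)

section calculus

variable {α β γ : Type} [Enc α] [Enc β] [Enc γ]

theorem UT.of {f : α → β} (hf : PolyTime f) : UT (fun _ => f) :=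
  ⟨0, fun _ => [], fun p => f p.1, by fun_prop, hf.comp PolyTime.fst', fun _ _ _ _ => rfl⟩

theorem UT.congr {F G : (List Bool → Bool) → α → β} (hF : UT F) (h : ∀ X x, G X x = F X x) :
    UT G := by
  have : G = F := funext fun X => funext fun x => h X x
  rwa [this]

theorem sz_answers_le (X : List Bool → Bool) {α : Type} (q : α × List Bool → List Bool) (x : α)
    (m : ℕ) : sz (answers X q x m) ≤ 4 * m + 1 := by
  have h := sz_listBool (answers X q x m)
  rwa [answers_length] at h

theorem UT.bound {F : (List Bool → Bool) → α → β} (hF : UT F) :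
    ∃ r : Polynomial ℕ, ∀ X x, sz (F X x) ≤ r.eval (sz x) := by
  obtain ⟨p, q, g, _, hg, hF⟩ := hF
  obtain ⟨r, hr⟩ := hg.pbdd
  refine ⟨r.comp (Polynomial.X + 4 * p + 2), fun X x => ?_⟩
  rw [hF X x _ le_rfl, Polynomial.eval_comp]
  refine (hr _).trans (eval_mono r ?_)
  rw [sz_prod]
  have h := sz_answers_le X q x (p.eval (sz x))
  simp only [Polynomial.eval_add, Polynomial.eval_X, Polynomial.eval_mul, Polynomial.eval_ofNat]
  omega

theorem UT.comp {G : (List Bool → Bool) → β → γ} {F : (List Bool → Bool) → α → β} (hG : UT G)
    (hF : UT F) : UT (fun X x => G X (F X x)) := by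
  obtain ⟨r, hr⟩ := hF.bound
  obtain ⟨p, q, g, hq, hg, hF⟩ := hF
  obtain ⟨p', q', g', hq', hg', hG⟩ := hG
  have hm : PolyTime (fun z : α × List Bool => p.eval (sz z.1)) :=
    polyEval_polyTime (PolyTime.size PolyTime.fst') p
  have hg1 : PolyTime (fun z : α × List Bool => g (z.1, z.2.take (p.eval (sz z.1)))) :=
    hg.comp (PolyTime.pair PolyTime.fst' (PolyTime.take hm PolyTime.snd'))
  have hd : PolyTime (fun z : α × List Bool => z.2.drop (p.eval (sz z.1))) :=
    PolyTime.drop hm PolyTime.snd'
  refine ⟨p + p'.comp r,
    fun z => if z.2.length < p.eval (sz z.1) then q z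
      else q' (g (z.1, z.2.take (p.eval (sz z.1))), z.2.drop (p.eval (sz z.1))),
    fun z => g' (g (z.1, z.2.take (p.eval (sz z.1))), z.2.drop (p.eval (sz z.1))),
    PolyTime.ite (PolyTime.decide_lt (PolyTime.length PolyTime.snd') hm) hq
      (hq'.comp (PolyTime.pair hg1 hd)), hg'.comp (PolyTime.pair hg1 hd), fun X x m h => ?_⟩
  rw [Polynomial.eval_add, Polynomial.eval_comp] at h
  set Q : α × List Bool → List Bool := fun z => if z.2.length < p.eval (sz z.1) then q z
      else q' (g (z.1, z.2.take (p.eval (sz z.1))), z.2.drop (p.eval (sz z.1))) with hQ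
  have h1 : answers X Q x (p.eval (sz x)) = answers X q x (p.eval (sz x)) := by
    have := answers_shift X q Q x x 0 (p.eval (sz x)) (fun j hj => by
      rw [hQ]
      simp only [answers, List.nil_append, answers_length]
      rw [if_pos hj]) (p.eval (sz x)) le_rfl
    simpa [answers] using this
  have h2 : g (x, answers X q x (p.eval (sz x))) = F X x := (hF X x _ le_rfl).symm
  obtain ⟨j, rfl⟩ : ∃ j, m = p.eval (sz x) + j := ⟨m - p.eval (sz x), by omega⟩
  have h3 := answers_shift X q' Q (F X x) x (p.eval (sz x)) j (fun i _ => by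
    rw [h1, hQ]
    simp only [List.length_append, answers_length]
    rw [if_neg (by omega), List.take_left' (answers_length _ _ _ _),
      List.drop_left' (answers_length _ _ _ _), h2]) j le_rfl
  rw [h1] at h3
  beta_reduce
  rw [h3, List.take_left' (answers_length _ _ _ _), List.drop_left' (answers_length _ _ _ _), h2]
  exact hG X (F X x) j (by have := eval_mono p' (hr X x); omega)

/-- Carrying along additional data. -/
theorem UT.first {F : (List Bool → Bool) → α → β} (hF : UT F) :
    UT (fun X (z : α × γ) => (F X z.1, z.2)) := by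
  obtain ⟨p, q, g, hq, hg, hF⟩ := hF
  refine ⟨p, fun z => q (z.1.1, z.2), fun z => (g (z.1.1, z.2), z.1.2),
    hq.comp (PolyTime.pair (PolyTime.fst PolyTime.fst') PolyTime.snd'),
    PolyTime.pair (hg.comp (PolyTime.pair (PolyTime.fst PolyTime.fst') PolyTime.snd'))
      (PolyTime.snd PolyTime.fst'), fun X z m h => ?_⟩
  have h1 : answers X (fun z : (α × γ) × List Bool => q (z.1.1, z.2)) z m =
      answers X q z.1 m := by
    have := answers_shift X q (fun z : (α × γ) × List Bool => q (z.1.1, z.2)) z.1 z 0 m
      (fun j _ => by simp [answers]) m le_rfl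
    simpa [answers] using this
  beta_reduce
  rw [h1, hF X z.1 m ((eval_mono p ?_).trans h)]
  rw [sz_prod]
  omega

theorem UT.post {F : (List Bool → Bool) → α → β} {g : β → γ} (hg : PolyTime g) (hF : UT F) :
    UT (fun X x => g (F X x)) := (UT.of hg).comp hF

theorem UT.pre {F : (List Bool → Bool) → β → γ} {g : α → β} (hF : UT F) (hg : PolyTime g) :
    UT (fun X x => F X (g x)) := hF.comp (UT.of hg)

theorem UT.pair {F : (List Bool → Bool) → α → β} {G : (List Bool → Bool) → α → γ} (hF : UT F)
    (hG : UT G) : UT (fun X x => (F X x, G X x)) := by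
  have h1 : UT (fun X (x : α) => (F X x, x)) :=
    (UT.first (γ := α) hF).pre (g := fun x => (x, x)) (by fun_prop)
  have h2 : UT (fun X (z : β × α) => (G X z.2, z.1)) :=
    (UT.first (γ := β) hG).pre (g := fun z : β × α => (z.2, z.1)) (by fun_prop)
  exact ((h2.comp h1).post (g := fun z : γ × β => (z.2, z.1)) (by fun_prop)).congr
    fun X x => rfl

/-- Case distinction by a polynomial-time test. -/
theorem UT.ite {P : α → Prop} [DecidablePred P] {F G : (List Bool → Bool) → α → β}
    (hP : PolyTime (fun x => decide (P x))) (hF : UT F) (hG : UT G) :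
    UT (fun X x => if P x then F X x else G X x) := by
  have h1 : UT (fun _ (x : α) => decide (P x)) := UT.of hP
  refine ((h1.pair (hF.pair hG)).post (g := fun z : Bool × β × β =>
    bif z.1 then z.2.1 else z.2.2) (PolyTime.cond (by fun_prop) (by fun_prop)
      (by fun_prop))).congr fun X x => ?_
  by_cases h : P x <;> simp [h]

theorem filterMap_range {β γ : Type} (L : List β) {h : β → γ} :
    (List.range L.length).filterMap (fun j => (L[j]?).map h) = L.map h := by
  induction L with
  | nil => rfl
  | cons a L ih =>
    rw [List.length_cons, List.range_succ_eq_map, List.filterMap_cons, List.filterMap_map]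
    simp only [List.getElem?_cons_zero, Option.map_some, List.map_cons]
    congr 1

/-- Parallel evaluation on a list. -/
theorem UT.map {l : α → List β} {F : (List Bool → Bool) → α × β → γ} (hl : PolyTime l)
    (hF : UT F) : UT (fun X x => (l x).map fun y => F X (x, y)) := by
  obtain ⟨p, q, g, hq, hg, hF⟩ := hF
  set M : α → ℕ := fun x => p.eval (sz (x, l x)) + 1 with hM
  have hMp : PolyTime M := (polyEval_polyTime (PolyTime.size (PolyTime.pair PolyTime.id hl)) p).succ
  have hMz : PolyTime (fun z : α × List Bool => M z.1) := hMp.comp PolyTime.fst'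
  have hlz : PolyTime (fun z : α × List Bool => l z.1) := hl.comp PolyTime.fst'
  have hj : PolyTime (fun z : α × List Bool => z.2.length / M z.1) :=
    PolyTime.natDiv (PolyTime.length PolyTime.snd') hMz
  set Q : α × List Bool → List Bool := fun z =>
    Option.casesOn (motive := fun _ => List Bool) ((l z.1)[z.2.length / M z.1]?) []
      fun y => q ((z.1, y), z.2.drop (z.2.length / M z.1 * M z.1)) with hQ
  have hQp : PolyTime Q := by
    rw [hQ]
    refine PolyTime.optionCases (PolyTime.getElem? hlz hj) (PolyTime.const _)
      (g := fun (z : α × List Bool) (y : β) =>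
        q ((z.1, y), z.2.drop (z.2.length / M z.1 * M z.1))) ?_
    refine hq.comp (PolyTime.pair (PolyTime.pair (PolyTime.fst PolyTime.fst') PolyTime.snd') ?_)
    exact PolyTime.drop (PolyTime.natMul (hj.comp PolyTime.fst') (hMz.comp PolyTime.fst'))
      (PolyTime.snd PolyTime.fst')
  obtain ⟨r, hr⟩ : PBdd (fun x : α => (l x).length * M x) := by
    refine ((PolyTime.natMul hl.length hMp).pbdd).of_le fun x => ?_
    rw [sz_nat]
    omega
  refine ⟨r, Q, fun z => (List.range (l z.1).length).filterMap fun j =>
      ((l z.1)[j]?).map fun y => g ((z.1, y), (z.2.drop (j * M z.1)).take (M z.1)), hQp, ?_,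
    fun X x m h => ?_⟩
  · refine PolyTime.filterMap (l := fun z : α × List Bool => List.range (l z.1).length)
      (g := fun z j => ((l z.1)[j]?).map fun y =>
        g ((z.1, y), (z.2.drop (j * M z.1)).take (M z.1)))
      (PolyTime.range hlz.length) ?_
    refine PolyTime.optionMap (o := fun z : (α × List Bool) × ℕ => (l z.1.1)[z.2]?)
      (g := fun z y => g ((z.1.1, y), (z.1.2.drop (z.2 * M z.1.1)).take (M z.1.1)))
      (PolyTime.getElem? (hlz.comp PolyTime.fst') PolyTime.snd') ?_
    refine hg.comp (PolyTime.pair (PolyTime.pair (PolyTime.fst (PolyTime.fst PolyTime.fst'))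
      PolyTime.snd') (PolyTime.take (hMz.comp (PolyTime.fst PolyTime.fst')) (PolyTime.drop
        (PolyTime.natMul (PolyTime.snd PolyTime.fst') (hMz.comp (PolyTime.fst PolyTime.fst')))
        (PolyTime.snd (PolyTime.fst PolyTime.fst')))))
  · have hM0 : 0 < M x := Nat.succ_pos _
    have key : ∀ j (hj : j < (l x).length),
        ((answers X Q x m).drop (j * M x)).take (M x) = answers X q (x, (l x)[j]) (M x) := by
      intro j hj
      have h1 := answers_shift X q Q (x, (l x)[j]) x (j * M x) (M x) (fun i hi => by
        have h2 : (j * M x + i) / M x = j := by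
          rw [Nat.add_comm, Nat.add_mul_div_right _ _ hM0, Nat.div_eq_of_lt hi, Nat.zero_add]
        rw [hQ]
        simp only [List.length_append, answers_length, h2, List.getElem?_eq_getElem hj]
        rw [List.drop_left' (answers_length _ _ _ _)]) (M x) le_rfl
      have h3 : j * M x + M x ≤ m := by
        have h4 : (j + 1) * M x ≤ (l x).length * M x := Nat.mul_le_mul_right _ hj
        have h5 : (j + 1) * M x = j * M x + M x := by ring
        have h6 := hr x
        beta_reduce at h6
        omega
      rw [List.take_drop, answers_take X Q x h3, h1, List.drop_left' (answers_length _ _ _ _)]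
    beta_reduce
    rw [← filterMap_range (l x)]
    refine List.filterMap_congr fun j hj => ?_
    rw [List.mem_range] at hj
    rw [List.getElem?_eq_getElem hj, Option.map_some, Option.map_some, key j hj]
    congr 1
    refine hF X _ _ ?_
    have h5 : sz (x, (l x)[j]) ≤ sz (x, l x) := by
      rw [sz_prod, sz_prod]
      have := sz_le_of_mem (List.getElem_mem hj)
      simp only
      omega
    have := eval_mono p h5
    simp only [hM]
    omega

/-- A question to the oracle. -/
theorem UT.query : UT (fun X (x : List Bool) => X x) :=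
  ⟨1, fun z => z.1, fun z => z.2.headD false, by fun_prop, PolyTime.headD PolyTime.snd'
    (PolyTime.const _), fun X x m h => by
      obtain ⟨j, rfl⟩ : ∃ j, m = 1 + j := ⟨m - 1, by simp at h; omega⟩
      obtain ⟨r, hr⟩ := answers_prefix X (fun z : List Bool × List Bool => z.1) x 1 j
      beta_reduce
      rw [hr]
      simp [answers]⟩

end calculus

end Pool.Agent.ROr14
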