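import Pool.Agent.ROr14.Prob

/-!
# Hidden successes in a random oracle
-/

set_option autoImplicit false

namespace Pool.Agent.ROr14

open MeasureTheory ProbabilityTheory Set N487b59b3

/-- The word `1^n`. -/
abbrev ones (n : ℕ) : List Bool := List.replicate n true

/-- The coordinate of the random oracle with the `b`-th bit of the candidate `c` at scale `n`. -/
def crd (n : ℕ) (c : ℕ × List Bool) (b : ℕ) : List Bool :=
  bitEncode ((ones n, ones c.1), (ones b, c.2))

theorem crd_inj {n n' : ℕ} {c c' : ℕ × List Bool} {b b' : ℕ} (h : crd n c b = crd n' c' b') :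
    n = n' ∧ c = c' ∧ b = b' := by
  have h1 := bitEncode_injective h
  simp only [Prod.mk.injEq] at h1
  obtain ⟨⟨h1, h2⟩, h3, h4⟩ := h1
  have e1 := congrArg List.length h1
  have e2 := congrArg List.length h2
  have e3 := congrArg List.length h3
  simp only [List.length_replicate] at e1 e2 e3
  exact ⟨e1, Prod.ext e2 h4, e3⟩

/-- The coordinates of the candidate `c` at scale `n`. -/
def blk (n : ℕ) (c : ℕ × List Bool) : Finset (List Bool) := (Finset.range (n * n)).image (crd n c)

theorem mem_blk {n : ℕ} {c : ℕ × List Bool} {z : List Bool} :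
    z ∈ blk n c ↔ ∃ b < n * n, crd n c b = z := by simp [blk]

theorem blk_card (n : ℕ) (c : ℕ × List Bool) : (blk n c).card = n * n := by
  rw [blk, Finset.card_image_of_injective _ fun b b' h => (crd_inj h).2.2, Finset.card_range]

theorem blk_inj {n n' : ℕ} {c c' : ℕ × List Bool} {z : List Bool} (h : z ∈ blk n c)
    (h' : z ∈ blk n' c') : n = n' ∧ c = c' := by
  obtain ⟨b, _, hb⟩ := mem_blk.1 h
  obtain ⟨b', _, hb'⟩ := mem_blk.1 h'
  have := crd_inj (hb.trans hb'.symm)
  exact ⟨this.1, this.2.1⟩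

theorem blk_disjoint {n n' : ℕ} {c c' : ℕ × List Bool} (h : ¬ (n = n' ∧ c = c')) :
    Disjoint (blk n c) (blk n' c') := by
  rw [Finset.disjoint_left]
  intro z hz hz'
  exact h (blk_inj hz hz')

/-- The candidates `(i, u)` at scale `n` with `i < k`. -/
def cand (n k : ℕ) : Finset (ℕ × List Bool) :=
  Finset.range k ×ˢ (Finset.univ.image fun u : Fin (n * n) → Bool => List.ofFn u)

theorem mem_cand {n k : ℕ} {c : ℕ × List Bool} : c ∈ cand n k ↔ c.1 < k ∧ c.2.length = n * n := by
  simp only [cand, Finset.mem_product, Finset.mem_range, Finset.mem_image, Finset.mem_univ,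
    true_and]
  refine and_congr_right fun _ => ⟨?_, fun h => ?_⟩
  · rintro ⟨u, hu⟩
    rw [← hu, List.length_ofFn]
  · refine ⟨fun i => c.2.get (i.cast h.symm), ?_⟩
    apply List.ext_get (by simp [h])
    intro i h1 h2
    simp

theorem cand_card (n k : ℕ) : (cand n k).card = k * 2 ^ (n * n) := by
  rw [cand, Finset.card_product, Finset.card_range,
    Finset.card_image_of_injective _ List.ofFn_injective]
  simp

theorem cand_mono {n k l : ℕ} (h : k ≤ l) : cand n k ⊆ cand n l := fun c hc => by
  rw [mem_cand] at hc ⊢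
  exact ⟨hc.1.trans_le h, hc.2⟩

/-- The candidate `c` succeeds at scale `n`. -/
def sc (n : ℕ) (c : ℕ × List Bool) (R : List Bool → Bool) : Prop := ∀ z ∈ blk n c, R z = true

/-- Some candidate `(i, u)` with `i < k` succeeds at scale `n`. -/
def inB (n k : ℕ) (R : List Bool → Bool) : Prop := ∃ c ∈ cand n k, sc n c R

theorem not_inB_zero (n : ℕ) (R : List Bool → Bool) : ¬ inB n 0 R := by
  rintro ⟨c, hc, _⟩
  rw [mem_cand] at hc
  omega

/-- No success. -/
def D (n k : ℕ) : Set (List Bool → Bool) := {R | ¬ inB n k R}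

theorem measure_D (n k : ℕ) :
    randomOracle (D n k) = (1 - (2⁻¹ : ENNReal) ^ (n * n)) ^ (k * 2 ^ (n * n)) := by
  have h := measure_noSuccess (cand n k) (blk n) (n * n) (fun c _ => blk_card n c)
    (fun c _ c' _ hc => blk_disjoint fun h => hc h.2)
  rw [cand_card] at h
  rw [← h]
  congr 1
  ext R
  simp [D, inB, sc]

/-! ### Adaptive questions -/

/-- The answers of the oracle `O` to the first `m` questions of the strategy `s`. -/
def ans (O : List Bool → Bool) (s : List Bool → List Bool) : ℕ → List Bool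
  | 0 => []
  | m + 1 => ans O s m ++ [O (s (ans O s m))]

theorem ans_length (O : List Bool → Bool) (s : List Bool → List Bool) (m : ℕ) :
    (ans O s m).length = m := by
  induction m with
  | zero => rfl
  | succ m ih => simp [ans, ih]

theorem ans_congr {O O' : List Bool → Bool} {s : List Bool → List Bool} {m : ℕ}
    (h : ∀ j < m, O (s (ans O s j)) = O' (s (ans O s j))) : ans O' s m = ans O s m := by
  induction m with
  | zero => rfl
  | succ m ih =>
    have h1 := ih fun j hj => h j (hj.trans (Nat.lt_succ_self m))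
    rw [ans, ans, h1, h m (Nat.lt_succ_self m)]

/-- The oracle which answers the question `w` by the coordinate `c w` of `R`, if there is one, and
by `A` otherwise. -/
def mix (c : List Bool → Option (List Bool)) (A R : List Bool → Bool) (w : List Bool) : Bool :=
  match c w with
  | some z => R z
  | none => A w

theorem mix_congr {c : List Bool → Option (List Bool)} {A R R' : List Bool → Bool} {w : List Bool}
    (h : ∀ z, c w = some z → R z = R' z) : mix c A R w = mix c A R' w := by
  unfold mix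
  cases hw : c w with
  | none => rfl
  | some z => exact h z hw

/-- The data of the stages: for each scale a strategy, a number of questions and a result. -/
structure Stage where
  /-- the coordinates of the random oracle -/
  c : List Bool → Option (List Bool)
  /-- coordinates are short -/
  hc : ∀ w z, c w = some z → z.length ≤ w.length
  /-- the base oracle -/
  A : List Bool → Bool
  /-- the strategy at scale `n` -/
  s : ℕ → List Bool → List Bool
  /-- the number of questions at scale `n` -/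
  M : ℕ → ℕ
  /-- the result at scale `n` -/
  t : ℕ → List Bool → Option ℕ
  /-- results are bounded -/
  ht : ∀ n a k, t n a = some k → k ≤ n

namespace Stage

variable (S : Stage)

/-- The result at scale `n`. -/
def θ (n : ℕ) (R : List Bool → Bool) : Option ℕ := S.t n (ans (mix S.c S.A R) (S.s n) (S.M n))

/-- The `j`-th question at scale `m`. -/
def qu (m j : ℕ) (R : List Bool → Bool) : List Bool := S.s m (ans (mix S.c S.A R) (S.s m) j)

theorem qu_congr {m j : ℕ} {R R' : List Bool → Bool}
    (h : ∀ i < j, ∀ z, S.c (S.qu m i R) = some z → R z = R' z) : S.qu m j R' = S.qu m j R := by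
  unfold qu
  rw [ans_congr (O := mix S.c S.A R) (O' := mix S.c S.A R') fun i hi => mix_congr fun z hz => h i hi z hz]

theorem θ_congr {m : ℕ} {R R' : List Bool → Bool}
    (h : ∀ i < S.M m, ∀ z, S.c (S.qu m i R) = some z → R z = R' z) : S.θ m R' = S.θ m R := by
  unfold θ
  rw [ans_congr (O := mix S.c S.A R) (O' := mix S.c S.A R') fun i hi => mix_congr fun z hz => h i hi z hz]

/-- All results before scale `n` are consistent, and the result at scale `n` is `k`. -/
def W (n k : ℕ) : Set (List Bool → Bool) :=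
  {R | (∀ m < n, ∀ l, S.θ m R = some l → inB m l R) ∧ S.θ n R = some k}

/-- All possible questions of the random oracle at scales up to `n`. -/
noncomputable def K (n : ℕ) : Finset (List Bool) :=
  (Finset.range (n + 1)).biUnion fun m => (Finset.range (S.M m)).biUnion fun j =>
    (Finset.univ.image fun u : Fin j → Bool => (S.c (S.s m (List.ofFn u))).getD [])

theorem mem_K {n m j : ℕ} {R : List Bool → Bool} {z : List Bool} (hm : m ≤ n) (hj : j < S.M m)
    (h : S.c (S.qu m j R) = some z) : z ∈ S.K n := by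
  refine Finset.mem_biUnion.2 ⟨m, Finset.mem_range.2 (by omega), Finset.mem_biUnion.2
    ⟨j, Finset.mem_range.2 hj, Finset.mem_image.2 ?_⟩⟩
  have h1 := ans_length (mix S.c S.A R) (S.s m) j
  refine ⟨fun i => (ans (mix S.c S.A R) (S.s m) j).get (i.cast h1.symm), Finset.mem_univ _, ?_⟩
  have h2 : List.ofFn (fun i : Fin j => (ans (mix S.c S.A R) (S.s m) j).get (i.cast h1.symm)) =
      ans (mix S.c S.A R) (S.s m) j := by
    apply List.ext_get (by simp [h1])
    intro i h1 h2
    simp
  rw [h2]
  change (S.c (S.qu m j R)).getD [] = z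
  rw [h]
  rfl

/-- The coordinates of the blocks at scales below `n`. -/
def Bl (n : ℕ) : Finset (List Bool) :=
  (Finset.range n).biUnion fun m => (cand m m).biUnion (blk m)

theorem mem_Bl {n m : ℕ} {c : ℕ × List Bool} {z : List Bool} (hm : m < n) (hc : c ∈ cand m m)
    (hz : z ∈ blk m c) : z ∈ Bl n :=
  Finset.mem_biUnion.2 ⟨m, Finset.mem_range.2 hm, Finset.mem_biUnion.2 ⟨c, hc, hz⟩⟩

theorem inB_congr {m l : ℕ} {R R' : List Bool → Bool} (hl : l ≤ m)
    (h : ∀ c ∈ cand m m, ∀ z ∈ blk m c, R z = R' z) (hR : inB m l R) : inB m l R' := by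
  obtain ⟨c, hc, hs⟩ := hR
  exact ⟨c, hc, fun z hz => by rw [← h c (cand_mono hl hc) z hz]; exact hs z hz⟩

theorem W_congr {n k : ℕ} {R R' : List Bool → Bool}
    (h : ∀ m ≤ n, ∀ i < S.M m, ∀ z, S.c (S.qu m i R) = some z → R z = R' z)
    (hB : ∀ m < n, ∀ c ∈ cand m m, ∀ z ∈ blk m c, R z = R' z) (hR : R ∈ S.W n k) :
    R' ∈ S.W n k := by
  refine ⟨fun m hm l hl => ?_, ?_⟩
  · rw [S.θ_congr (h m hm.le)] at hl
    exact inB_congr (S.ht m _ l hl) (hB m hm) (hR.1 m hm l hl)
  · rw [S.θ_congr (h n le_rfl)]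
    exact hR.2

theorem dep_W (n k : ℕ) : Dep (S.K n ∪ Bl n) (S.W n k) := by
  intro R R' h hR
  refine S.W_congr (fun m hm i hi z hz => h z ?_) (fun m hm c hc z hz => h z ?_) hR
  · exact Finset.mem_union_left _ (S.mem_K hm hi hz)
  · exact Finset.mem_union_right _ (mem_Bl hm hc hz)

/-- The candidate `c` at scale `n` is touched by the questions at scales up to `n`. -/
def touch (n : ℕ) (R : List Bool → Bool) (c : ℕ × List Bool) : Prop :=
  ∃ m ≤ n, ∃ j < S.M m, ∃ z ∈ blk n c, S.c (S.qu m j R) = some z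

open Classical in
/-- The set of touched candidates. -/
noncomputable def tch (n : ℕ) (R : List Bool → Bool) : Finset (ℕ × List Bool) :=
  (cand n n).filter (S.touch n R)

/-- The coordinates of the candidates at scale `n` outside `T`. -/
def off (n : ℕ) (T : Finset (ℕ × List Bool)) : Finset (List Bool) :=
  (cand n n \ T).biUnion (blk n)

/-- The good event for the touched set `T`. -/
def G (n k : ℕ) (T : Finset (ℕ × List Bool)) : Set (List Bool → Bool) :=
  {R | R ∈ S.W n k ∧ S.tch n R = T ∧ ∀ c ∈ T, ¬ sc n c R}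

theorem off_spec {n m j : ℕ} {R : List Bool → Bool} {z : List Bool} (hm : m ≤ n) (hj : j < S.M m)
    (h : S.c (S.qu m j R) = some z) : z ∉ off n (S.tch n R) := by
  intro hz
  obtain ⟨c, hc, hz⟩ := Finset.mem_biUnion.1 hz
  rw [Finset.mem_sdiff] at hc
  refine hc.2 ?_
  classical
  exact Finset.mem_filter.2 ⟨hc.1, m, hm, j, hj, z, hz, h⟩

theorem tch_congr {n : ℕ} {R R' : List Bool → Bool}
    (h : ∀ m ≤ n, ∀ i < S.M m, ∀ z, S.c (S.qu m i R) = some z → R z = R' z) :
    S.tch n R' = S.tch n R := by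
  classical
  unfold tch
  congr 1
  ext c
  refine exists_congr fun m => and_congr_right fun hm => exists_congr fun j =>
    and_congr_right fun hj => ?_
  rw [S.qu_congr fun i hi z hz => h m hm i (hi.trans hj) z hz]

theorem dep_G (n k : ℕ) (T : Finset (ℕ × List Bool)) :
    Dep ((S.K n ∪ Bl (n + 1)) \ off n T) (S.G n k T) := by
  intro R R' h ⟨hW, hT, hs⟩
  have h1 : ∀ m ≤ n, ∀ i < S.M m, ∀ z, S.c (S.qu m i R) = some z → R z = R' z := by
    intro m hm i hi z hz
    refine h z (Finset.mem_sdiff.2 ⟨Finset.mem_union_left _ (S.mem_K hm hi hz), ?_⟩)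
    rw [← hT]
    exact S.off_spec hm hi hz
  refine ⟨S.W_congr h1 (fun m hm c hc z hz => h z (Finset.mem_sdiff.2 ⟨Finset.mem_union_right _
    (mem_Bl (hm.trans (Nat.lt_succ_self n)) hc hz), ?_⟩)) hW, (S.tch_congr h1).trans hT,
    fun c hc hs' => hs c hc fun z hz => ?_⟩
  · intro hz'
    obtain ⟨c', _, hz''⟩ := Finset.mem_biUnion.1 hz'
    exact absurd (blk_inj hz hz'').1 hm.ne
  · have hc' : c ∈ cand n n := by
      rw [← hT] at hc
      classical
      exact (Finset.mem_filter.1 hc).1
    rw [h z (Finset.mem_sdiff.2 ⟨Finset.mem_union_right _ (mem_Bl (Nat.lt_succ_self n) hc' hz), ?_⟩)]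
    · exact hs' z hz
    · intro hz'
      obtain ⟨c', hc1, hz''⟩ := Finset.mem_biUnion.1 hz'
      have := (blk_inj hz hz'').2
      subst this
      exact (Finset.mem_sdiff.1 hc1).2 hc

/-- No success outside `T`. -/
def DT (n k : ℕ) (T : Finset (ℕ × List Bool)) : Set (List Bool → Bool) :=
  {R | ∀ c ∈ cand n k \ T, ¬ sc n c R}

theorem dep_DT {n k : ℕ} (hk : k ≤ n) (T : Finset (ℕ × List Bool)) :
    Dep (off n T) (DT n k T) := by
  intro R R' h hR c hc hs
  refine hR c hc fun z hz => ?_
  rw [h z (Finset.mem_biUnion.2 ⟨c, Finset.sdiff_subset_sdiff (cand_mono hk) (le_refl T) hc, hz⟩)]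
  exact hs z hz

theorem D_sub_DT (n k : ℕ) (T : Finset (ℕ × List Bool)) : D n k ⊆ DT n k T :=
  fun _ hR c hc hs => hR ⟨c, (Finset.mem_sdiff.1 hc).1, hs⟩

theorem G_inter_DT {n k : ℕ} (T : Finset (ℕ × List Bool)) :
    S.G n k T ∩ DT n k T ⊆ (S.W n k ∩ D n k) ∩ {R | S.tch n R = T} := by
  rintro R ⟨⟨hW, hT, hs⟩, hD⟩
  refine ⟨⟨hW, ?_⟩, hT⟩
  rintro ⟨c, hc, hsc⟩
  by_cases h : c ∈ T
  · exact hs c h hsc
  · exact hD c (Finset.mem_sdiff.2 ⟨hc, h⟩) hsc

/-- First step: the good part. -/
theorem good_le {n k : ℕ} (hk : k ≤ n) :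
    (∑ T ∈ (cand n n).powerset, randomOracle (S.G n k T)) * randomOracle (D n k) ≤
      randomOracle (S.W n k ∩ D n k) := by
  classical
  rw [Finset.sum_mul]
  have h1 : ∀ T ∈ (cand n n).powerset, randomOracle (S.G n k T) * randomOracle (D n k) ≤
      randomOracle (S.G n k T ∩ DT n k T) := by
    intro T _
    rw [(S.dep_G n k T).indep (dep_DT hk T) Finset.sdiff_disjoint]
    gcongr
    exact D_sub_DT n k T
  refine (Finset.sum_le_sum h1).trans ?_
  rw [← measure_biUnion_finset]
  · refine measure_mono (iUnion₂_subset fun T _ => ?_)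
    exact (S.G_inter_DT T).trans inter_subset_left
  · intro T _ T' _ hTT'
    rw [Function.onFun, Set.disjoint_left]
    rintro R hR hR'
    exact hTT' (((S.G_inter_DT T hR).2).symm.trans (S.G_inter_DT T' hR').2)
  · intro T _
    exact (((S.dep_G n k T).mono (Finset.subset_union_left)).inter ((dep_DT hk T).mono
      (Finset.subset_union_right))).measurableSet

/-- The `j`-th question at scale `m` is the first one touching the candidate `c` at scale `n`. -/
def E (n m j : ℕ) (c : ℕ × List Bool) : Set (List Bool → Bool) :=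
  {R | (∃ z ∈ blk n c, S.c (S.qu m j R) = some z) ∧
    ∀ i < j, ¬ ∃ z ∈ blk n c, S.c (S.qu m i R) = some z}

theorem dep_E {n m j : ℕ} (hm : m ≤ n) (hj : j < S.M m) (c : ℕ × List Bool) :
    Dep (S.K n \ blk n c) (S.E n m j c) := by
  intro R R' h ⟨h1, h2⟩
  have h3 : ∀ i ≤ j, S.qu m i R' = S.qu m i R := by
    intro i hi
    refine S.qu_congr fun i' hi' z hz => h z (Finset.mem_sdiff.2
      ⟨S.mem_K hm (by omega) hz, fun hz' => h2 i' (by omega) ⟨z, hz', hz⟩⟩)
  refine ⟨?_, fun i hi => ?_⟩
  · rw [h3 j le_rfl]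
    exact h1
  · rw [h3 i hi.le]
    exact h2 i hi

theorem measure_E_inter {n m j : ℕ} (hm : m ≤ n) (hj : j < S.M m) (c : ℕ × List Bool) :
    randomOracle (S.E n m j c ∩ {R | sc n c R}) =
      randomOracle (S.E n m j c) * (2⁻¹ : ENNReal) ^ (n * n) := by
  have h := (S.dep_E hm hj c).indep (dep_allTrue (blk n c)) Finset.sdiff_disjoint
  rw [measure_allTrue, blk_card] at h
  exact h

theorem sum_E_le {n m j : ℕ} (hm : m ≤ n) (hj : j < S.M m) :
    ∑ c ∈ cand n n, randomOracle (S.E n m j c) ≤ 1 := by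
  rw [← measure_biUnion_finset]
  · exact prob_le_one
  · intro c _ c' _ hcc'
    rw [Function.onFun, Set.disjoint_left]
    rintro R ⟨⟨z, hz, h⟩, _⟩ ⟨⟨z', hz', h'⟩, _⟩
    have h1 : z = z' := by
      have := h.symm.trans h'
      simpa using this
    subst h1
    exact hcc' (blk_inj hz hz').2
  · intro c _
    exact (S.dep_E hm hj c).measurableSet

/-- The number of questions at scales up to `n`. -/
def Q (n : ℕ) : ℕ := ∑ m ∈ Finset.range (n + 1), S.M m

/-- Second step: successes are rarely touched. -/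
theorem touched_le (n : ℕ) :
    randomOracle {R | ∃ c ∈ S.tch n R, sc n c R} ≤ S.Q n * (2⁻¹ : ENNReal) ^ (n * n) := by
  classical
  have h1 : {R | ∃ c ∈ S.tch n R, sc n c R} ⊆ ⋃ m ∈ Finset.range (n + 1),
      ⋃ j ∈ Finset.range (S.M m), ⋃ c ∈ cand n n, (S.E n m j c ∩ {R | sc n c R}) := by
    rintro R ⟨c, hc, hs⟩
    obtain ⟨hc1, m, hm, hj⟩ := Finset.mem_filter.1 hc
    have hj' : ∃ j, j < S.M m ∧ ∃ z ∈ blk n c, S.c (S.qu m j R) = some z := hj
    refine mem_iUnion₂.2 ⟨m, Finset.mem_range.2 (by omega), mem_iUnion₂.2 ⟨Nat.find hj',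
      Finset.mem_range.2 (Nat.find_spec hj').1, mem_iUnion₂.2 ⟨c, hc1,
      ⟨(Nat.find_spec hj').2, fun i hi hi' => ?_⟩, hs⟩⟩⟩
    exact Nat.find_min hj' hi ⟨hi.trans (Nat.find_spec hj').1, hi'⟩
  refine (measure_mono h1).trans ((measure_biUnion_finset_le _ _).trans ?_)
  rw [Q, Nat.cast_sum, Finset.sum_mul]
  refine Finset.sum_le_sum fun m hm => (measure_biUnion_finset_le _ _).trans ?_
  have hm' : m ≤ n := by
    have := Finset.mem_range.1 hm
    omega
  have h2 : ∀ j ∈ Finset.range (S.M m), randomOracle (⋃ c ∈ cand n n,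
      (S.E n m j c ∩ {R | sc n c R})) ≤ (2⁻¹ : ENNReal) ^ (n * n) := by
    intro j hj
    have hj' := Finset.mem_range.1 hj
    refine (measure_biUnion_finset_le _ _).trans ?_
    calc ∑ c ∈ cand n n, randomOracle (S.E n m j c ∩ {R | sc n c R})
        = (∑ c ∈ cand n n, randomOracle (S.E n m j c)) * (2⁻¹ : ENNReal) ^ (n * n) := by
          rw [Finset.sum_mul]
          exact Finset.sum_congr rfl fun c _ => S.measure_E_inter hm' hj' c
      _ ≤ 1 * (2⁻¹ : ENNReal) ^ (n * n) := by
          gcongr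
          exact S.sum_E_le hm' hj'
      _ = _ := one_mul _
  refine (Finset.sum_le_sum h2).trans ?_
  rw [Finset.sum_const, Finset.card_range, nsmul_eq_mul]

/-- The main inequality. -/
theorem main_le {n k : ℕ} (hk : k ≤ n) :
    randomOracle (S.W n k) * randomOracle (D n k) ≤
      randomOracle (S.W n k ∩ D n k) + S.Q n * (2⁻¹ : ENNReal) ^ (n * n) := by
  classical
  have h1 : S.W n k ⊆ (⋃ T ∈ (cand n n).powerset, S.G n k T) ∪
      {R | ∃ c ∈ S.tch n R, sc n c R} := by
    intro R hR
    by_cases h : ∃ c ∈ S.tch n R, sc n c R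
    · exact Or.inr h
    · push Not at h
      exact Or.inl (mem_iUnion₂.2 ⟨S.tch n R, Finset.mem_powerset.2 (Finset.filter_subset _ _),
        hR, rfl, h⟩)
  have h2 : randomOracle (S.W n k) ≤ (∑ T ∈ (cand n n).powerset, randomOracle (S.G n k T)) +
      S.Q n * (2⁻¹ : ENNReal) ^ (n * n) :=
    (measure_mono h1).trans ((measure_union_le _ _).trans
      (add_le_add (measure_biUnion_finset_le _ _) (S.touched_le n)))
  calc randomOracle (S.W n k) * randomOracle (D n k)
      ≤ ((∑ T ∈ (cand n n).powerset, randomOracle (S.G n k T)) +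
          S.Q n * (2⁻¹ : ENNReal) ^ (n * n)) * randomOracle (D n k) := by gcongr
    _ = (∑ T ∈ (cand n n).powerset, randomOracle (S.G n k T)) * randomOracle (D n k) +
          S.Q n * (2⁻¹ : ENNReal) ^ (n * n) * randomOracle (D n k) := add_mul _ _ _
    _ ≤ randomOracle (S.W n k ∩ D n k) + S.Q n * (2⁻¹ : ENNReal) ^ (n * n) * 1 := by
        gcongr
        · exact S.good_le hk
        · exact prob_le_one
    _ = _ := by rw [mul_one]

end Stage

end Pool.Agent.ROr14
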