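import Pool.Agent.ROr14.Mach

/-!
# Growth estimates
-/

set_option autoImplicit false

namespace Pool.Agent.ROr14

open Pool.Agent.PT Pool.Agent.TMB67 Pool.Agent.POpt67 Pool.Agent.POpt70
open N68a2faeb N793a5b8e N487b59b3

theorem cube_le {s : ℕ} (hs : 16 ≤ s) : 8 * s ^ 3 ≤ 2 ^ (s - 1) := by
  induction s, hs using Nat.le_induction with
  | base => norm_num
  | succ s hs ih =>
    obtain ⟨t, rfl⟩ : ∃ t, s = t + 16 := ⟨s - 16, by omega⟩
    have h1 : 2 ^ (t + 16 + 1 - 1) = 2 * 2 ^ (t + 16 - 1) := by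
      rw [show t + 16 + 1 - 1 = (t + 16 - 1) + 1 by omega, pow_succ, mul_comm]
    rw [h1]
    have h2 : (t + 16 + 1) ^ 3 ≤ 2 * (t + 16) ^ 3 := by nlinarith [sq_nonneg t, sq_nonneg (t+1)]
    omega

theorem size_growth (b : ℕ) : ∃ n1, ∀ n ≥ n1, b ≤ n.size ∧
    b * (n.size * n.size + 7) + 3 ≤ n := by
  refine ⟨2 ^ (b + 16), fun n hn => ?_⟩
  have h1 : b + 16 < n.size := Nat.lt_size.2 hn
  have h2 : 2 ^ (n.size - 1) ≤ n := Nat.lt_size.1 (by omega)
  have h3 := cube_le (s := n.size) (by omega)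
  refine ⟨by omega, ?_⟩
  have h4 : b * (n.size * n.size + 7) + 3 ≤ 8 * n.size ^ 3 := by
    have h5 : b ≤ n.size := by omega
    calc b * (n.size * n.size + 7) + 3 ≤ n.size * (n.size * n.size + 7) + 3 := by gcongr
      _ ≤ 8 * n.size ^ 3 := by
        have h6 : 16 ≤ n.size := by omega
        nlinarith [Nat.mul_le_mul h6 h6]
  omega

/-- The exponent bounding everything at scale `n`. -/
def ex (n : ℕ) : ℕ := n * n.size * n.size + n + 1

theorem ex_mono {m n : ℕ} (h : m ≤ n) : ex m ≤ ex n := by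
  have h1 := Nat.size_le_size h
  unfold ex
  gcongr

theorem ex_growth (b : ℕ) : ∃ n1, ∀ n ≥ n1, 3 * n + b * (ex n + 5) ≤ n * n := by
  obtain ⟨n1, h⟩ := size_growth b
  refine ⟨n1 + 1, fun n hn => ?_⟩
  have h1 := (h n (by omega)).2
  have h2 : n * (b * (n.size * n.size + 7) + 3) ≤ n * n := Nat.mul_le_mul_left _ h1
  have h3 : b * (ex n + 5) ≤ n * (b * (n.size * n.size + 7)) := by
    unfold ex
    have h4 : n * n.size * n.size + n + 1 + 5 ≤ n * (n.size * n.size + 7) := by nlinarith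
    calc b * (n * n.size * n.size + n + 1 + 5) ≤ b * (n * (n.size * n.size + 7)) := by gcongr
      _ = n * (b * (n.size * n.size + 7)) := by ring
  calc 3 * n + b * (ex n + 5) ≤ 3 * n + n * (b * (n.size * n.size + 7)) := by gcongr
    _ = n * (b * (n.size * n.size + 7) + 3) := by ring
    _ ≤ _ := h2

/-- The parameters at scale `n`, computed from `l = 2^(n^2)`. -/
def par (l n : ℕ) : ℕ × (ℕ × ℕ) × ℕ :=
  (n, (cp l (n * n.size), cp l (n * n.size * n.size)), cp l (n + 1))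

theorem par_polyTime {α : Type} [Enc α] {f g : α → ℕ} (hf : PolyTime f) (hg : PolyTime g) :
    PolyTime (fun x => par (f x) (g x)) := by
  unfold par
  have hs : PolyTime (fun x => Nat.size (g x)) := hg.natSize
  refine PolyTime.pair hg (PolyTime.pair (PolyTime.pair (cp_polyTime hf (hg.natMul hs))
    (cp_polyTime hf ((hg.natMul hs).natMul hs))) (cp_polyTime hf hg.succ))

/-- The parameters at scale `n`. -/
def pr (n : ℕ) : ℕ × (ℕ × ℕ) × ℕ := par (2 ^ (n * n)) n

theorem cp_two_pow (m k : ℕ) : cp (2 ^ m) k = 2 ^ min k m := by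
  rw [cp, Nat.log_pow (by norm_num)]

theorem sz_pr_le (n : ℕ) : sz (pr n) ≤ 2 ^ (ex n + 4) := by
  have h0 : n < 2 ^ n := Nat.lt_two_pow_self
  have key : ∀ k, k ≤ ex n → cp (2 ^ (n * n)) k ≤ 2 ^ ex n := by
    intro k hk
    rw [cp_two_pow]
    exact Nat.pow_le_pow_right (by norm_num) ((min_le_left _ _).trans hk)
  have hn : n ≤ ex n := by unfold ex; omega
  have hn1 : n + 1 ≤ ex n := by unfold ex; omega
  have hb : n * n.size * n.size ≤ ex n := by unfold ex; omega
  have ha : n * n.size ≤ ex n := by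
    rcases Nat.eq_zero_or_pos n.size with h | h
    · rw [h]; simp
    · exact le_trans (Nat.le_mul_of_pos_right _ h) hb
  have h1 := key _ ha
  have h2 := key _ hb
  have h3 := key _ hn1
  have h4 : 2 ^ n ≤ 2 ^ ex n := Nat.pow_le_pow_right (by norm_num) hn
  have h5 : 2 ^ (ex n + 4) = 16 * 2 ^ ex n := by rw [pow_add]; ring
  have h6 : 2 ≤ 2 ^ ex n := by
    calc 2 = 2 ^ 1 := rfl
      _ ≤ 2 ^ ex n := Nat.pow_le_pow_right (by norm_num) (by unfold ex; omega)
  unfold pr par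
  simp only [sz_prod, sz_nat]
  rw [h5]
  omega

theorem pow_bound (P : Polynomial ℕ) : ∃ a, ∀ m, P.eval (2 ^ m) ≤ 2 ^ ((a + 1) * (m + 2)) := by
  obtain ⟨a, ha⟩ := exists_pow_bound P
  refine ⟨a, fun m => (ha _).trans ?_⟩
  have h1 : 2 ^ m + 2 ≤ 2 ^ (m + 2) := by
    have : 0 < 2 ^ m := by positivity
    rw [pow_add]
    omega
  calc (2 ^ m + 2) ^ (a + 1) ≤ (2 ^ (m + 2)) ^ (a + 1) := Nat.pow_le_pow_left h1 _
    _ = 2 ^ ((a + 1) * (m + 2)) := by rw [← pow_mul, mul_comm]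

theorem inp_sz (n v : ℕ) : sz (inp n v) ≤ 4 * n + 4 * v + 7 := by
  unfold inp
  rw [sz_prod]
  have h1 := sz_listBool (true :: ones n)
  have h2 := sz_listBool (ones v)
  simp only [List.length_cons, List.length_replicate] at h1 h2
  simp only
  omega

/-- The clocks are large enough for every machine. -/
theorem clock (Q : Polynomial ℕ) : ∃ n1, ∀ n ≥ n1,
    (pr n).2.2 = 2 ^ (n + 1) ∧ Q.eval (sz (inp n (2 ^ (n + 1)))) ≤ (pr n).2.1.1 ∧
      Q.eval (sz (inp n (2 ^ (n + 1))) + (pr n).2.1.1) ≤ (pr n).2.1.2 := by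
  obtain ⟨a, ha⟩ := pow_bound Q
  obtain ⟨n1, h⟩ := size_growth (10 * (a + 1))
  refine ⟨n1 + 10, fun n hn => ?_⟩
  obtain ⟨hs, hg⟩ := h n (by omega)
  have hsn : n.size * n.size ≤ n := by
    have : n.size * n.size + 7 ≤ 10 * (a + 1) * (n.size * n.size + 7) :=
      Nat.le_mul_of_pos_left _ (by omega)
    omega
  have hs1 : n.size ≤ n := le_trans (Nat.le_mul_of_pos_left _ (by omega)) hsn
  have e1 : (pr n).2.2 = 2 ^ (n + 1) := by
    change cp (2 ^ (n * n)) (n + 1) = _
    rw [cp_two_pow, min_eq_left]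
    nlinarith
  have e2 : (pr n).2.1.1 = 2 ^ (n * n.size) := by
    change cp (2 ^ (n * n)) (n * n.size) = _
    rw [cp_two_pow, min_eq_left]
    exact Nat.mul_le_mul_left _ hs1
  have e3 : (pr n).2.1.2 = 2 ^ (n * n.size * n.size) := by
    change cp (2 ^ (n * n)) (n * n.size * n.size) = _
    rw [cp_two_pow, min_eq_left]
    rw [mul_assoc]
    exact Nat.mul_le_mul_left _ hsn
  have h0 : n < 2 ^ n := Nat.lt_two_pow_self
  have hsz : sz (inp n (2 ^ (n + 1))) ≤ 2 ^ (n + 5) := by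
    have h1 := inp_sz n (2 ^ (n + 1))
    have h2 : 2 ^ (n + 5) = 32 * 2 ^ n := by rw [pow_add]; ring
    have h3 : 2 ^ (n + 1) = 2 * 2 ^ n := by rw [pow_succ]; ring
    omega
  refine ⟨e1, ?_, ?_⟩
  · rw [e2]
    refine (eval_mono Q hsz).trans ((ha _).trans (Nat.pow_le_pow_right (by norm_num) ?_))
    calc (a + 1) * (n + 5 + 2) ≤ (a + 1) * (10 * n) := by
          gcongr
          omega
      _ = n * (10 * (a + 1)) := by ring
      _ ≤ n * n.size := by gcongr
  · rw [e3, e2]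
    have h1 : sz (inp n (2 ^ (n + 1))) + 2 ^ (n * n.size) ≤ 2 ^ (n * n.size + 6) := by
      have h2 : n + 5 ≤ n * n.size + 5 := by
        have : n ≤ n * n.size := Nat.le_mul_of_pos_right _ (by omega)
        omega
      have h3 : 2 ^ (n + 5) ≤ 2 ^ (n * n.size + 5) := Nat.pow_le_pow_right (by norm_num) h2
      have h4 : 2 ^ (n * n.size) ≤ 2 ^ (n * n.size + 5) :=
        Nat.pow_le_pow_right (by norm_num) (by omega)
      have h5 : 2 ^ (n * n.size + 6) = 2 * 2 ^ (n * n.size + 5) := by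
        rw [show n * n.size + 6 = (n * n.size + 5) + 1 by omega, pow_succ]
        ring
      omega
    refine (eval_mono Q h1).trans ((ha _).trans (Nat.pow_le_pow_right (by norm_num) ?_))
    have h6 : 1 ≤ n * n.size := Nat.mul_pos (by omega) (by omega)
    calc (a + 1) * (n * n.size + 6 + 2) ≤ (a + 1) * (10 * (n * n.size)) := by
          gcongr
          omega
      _ = n * n.size * (10 * (a + 1)) := by ring
      _ ≤ n * n.size * n.size := by gcongr

end Pool.Agent.ROr14
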