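import Pool.Agent.ROr14.Sys
import Pool.Agent.POpt70.RelGen

/-!
# Proof systems relative to a random oracle: the proof
-/

set_option autoImplicit false

namespace Pool.Agent.ROr14

open Pool.Agent.PT Pool.Agent.TMB67 Pool.Agent.POpt67 Pool.Agent.POpt70
open N68a2faeb N793a5b8e N487b59b3 MeasureTheory

theorem countable_UT :
    {F : (List Bool → Bool) → List Bool → List Bool | UT F}.Countable := by
  have h1 := (Set.countable_univ (α := ℕ)).prod (countable_polyTime.prod countable_polyTime)
  refine (h1.image fun z : ℕ × ((List Bool × List Bool → List Bool) ×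
    (List Bool × List Bool → List Bool)) => fun (X : List Bool → Bool) (x : List Bool) =>
      z.2.2 (x, answers X z.2.1 x ((sz x + 2) ^ (z.1 + 1)))).mono ?_
  rintro F ⟨p, q, g, hq, hg, hF⟩
  obtain ⟨a, ha⟩ := exists_pow_bound p
  refine ⟨(a, q, g), ⟨Set.mem_univ _, hq, hg⟩, ?_⟩
  funext X x
  exact (hF X x _ (ha _)).symm

/-- A way to ask a random oracle through another oracle. -/
structure Access where
  /-- the coordinate asked for by a question -/
  c : List Bool → Option (List Bool)
  /-- a question for a coordinate -/
  e : List Bool → List Bool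
  /-- coordinates are short -/
  hc : ∀ w z, c w = some z → z.length ≤ w.length
  /-- questions are easy to find -/
  he : PolyTime e
  /-- questions ask for the right coordinate -/
  hce : ∀ z, c (e z) = some z

theorem Access.mix_e (S : Access) (A R : List Bool → Bool) (z : List Bool) :
    mix S.c A R (S.e z) = R z := by
  unfold mix
  rw [S.hce]

/-! ### The hidden language -/

theorem crd_polyTime {α : Type} [Enc α] {n i b : α → ℕ} {u : α → List Bool} (hn : PolyTime n)
    (hi : PolyTime i) (hb : PolyTime b) (hu : PolyTime u) :
    PolyTime (fun x => crd (n x) (i x, u x) (b x)) := by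
  unfold crd ones
  exact (Compat.enc (α := (List Bool × List Bool) × (List Bool × List Bool))).comp
    (PolyTime.pair (PolyTime.pair (PolyTime.replicate hn (PolyTime.const true))
      (PolyTime.replicate hi (PolyTime.const true)))
      (PolyTime.pair (PolyTime.replicate hb (PolyTime.const true)) hu))

/-- The verification of candidates. -/
def ver (S : Access) (D : List Bool → List Bool × List Bool) (X : List Bool → Bool)
    (y : List Bool × List Bool) : Bool :=
  (decide ((D y.2).1.length < (D y.1).2.length) &&
    decide ((D y.2).2.length = (D y.1).1.length * (D y.1).1.length)) &&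
  ((List.range ((D y.1).1.length * (D y.1).1.length)).map fun b =>
    X (S.e (crd (D y.1).1.length ((D y.2).1.length, (D y.2).2) b))).all fun b => b

theorem ver_UT (S : Access) {D : List Bool → List Bool × List Bool} (hD : PolyTime D) :
    UT (ver S D) := by
  have h1 : PolyTime (fun y : List Bool × List Bool => D y.1) := hD.comp PolyTime.fst'
  have h2 : PolyTime (fun y : List Bool × List Bool => D y.2) := hD.comp PolyTime.snd'
  have hn : PolyTime (fun y : List Bool × List Bool => (D y.1).1.length) :=
    (PolyTime.fst h1).length
  have hk : PolyTime (fun y : List Bool × List Bool => (D y.1).2.length) :=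
    (PolyTime.snd h1).length
  have hi : PolyTime (fun y : List Bool × List Bool => (D y.2).1.length) :=
    (PolyTime.fst h2).length
  have hu : PolyTime (fun y : List Bool × List Bool => (D y.2).2) := PolyTime.snd h2
  have h3 : UT (fun X (z : (List Bool × List Bool) × ℕ) =>
      X (S.e (crd (D z.1.1).1.length ((D z.1.2).1.length, (D z.1.2).2) z.2))) :=
    UT.query.pre (g := fun z : (List Bool × List Bool) × ℕ =>
      S.e (crd (D z.1.1).1.length ((D z.1.2).1.length, (D z.1.2).2) z.2))
      (S.he.comp (crd_polyTime (hn.comp PolyTime.fst')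
        (hi.comp PolyTime.fst') PolyTime.snd' (hu.comp PolyTime.fst')))
  have h4 := UT.map (l := fun y : List Bool × List Bool =>
    List.range ((D y.1).1.length * (D y.1).1.length)) (PolyTime.range (hn.natMul hn)) h3
  have h5 : UT (fun _ (y : List Bool × List Bool) =>
      (decide ((D y.2).1.length < (D y.1).2.length) &&
        decide ((D y.2).2.length = (D y.1).1.length * (D y.1).1.length))) :=
    UT.of (PolyTime.and (PolyTime.decide_lt hi hk)
      (PolyTime.decide_eq hu.length (hn.natMul hn)))
  refine ((h5.pair h4).post (g := fun z : Bool × List Bool => z.1 && z.2.all fun b => b) ?_).congr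
    fun X y => rfl
  refine PolyTime.and PolyTime.fst' (PolyTime.all PolyTime.snd' (g := fun _ b => b) ?_)
  exact PolyTime.snd'

noncomputable instance (n k : ℕ) (R : List Bool → Bool) : Decidable (inB n k R) :=
  Classical.propDecidable _

/-- The hidden language. -/
noncomputable def hid (D : List Bool → List Bool × List Bool) (R : List Bool → Bool) :
    DecisionProblem := fun x => decide (inB (D x).1.length (D x).2.length R)

theorem hid_mem (S : Access) {D : List Bool → List Bool × List Bool} (hD : PolyTime D)
    (hD' : ∀ p : List Bool × List Bool, D (bitEncode p) = p) (A R : List Bool → Bool) :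
    hid D R ∈ NPOracle (mix S.c A R) := by
  have hb : PBdd (fun x : List Bool => 6 * (D x).2.length + 1 +
      3 * ((D x).1.length * (D x).1.length)) := by
    have h1 : PolyTime (fun x : List Bool => (D x).1.length) := (PolyTime.fst hD).length
    have h2 : PolyTime (fun x : List Bool => (D x).2.length) := (PolyTime.snd hD).length
    have h3 : PBdd (fun x : List Bool => (D x).1.length) :=
      h1.pbdd.of_le fun x => by rw [sz_nat]; omega
    have h4 : PBdd (fun x : List Bool => (D x).2.length) :=
      h2.pbdd.of_le fun x => by rw [sz_nat]; omega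
    exact (((PBdd.const 6).mul h4).add (PBdd.const 1)).add ((PBdd.const 3).mul (h3.mul h3))
  obtain ⟨p, hp⟩ := hb
  refine ⟨p.comp (4 * Polynomial.X + 1), ver S D (mix S.c A R),
    (ver_UT S hD).isPolyTimeOracle (mix S.c A R), fun x => ?_⟩
  rw [hid, decide_eq_true_iff]
  constructor
  · rintro ⟨c, hc, hs⟩
    rw [mem_cand] at hc
    refine ⟨bitEncode (ones c.1, c.2), ?_, ?_⟩
    · have h1 : (bitEncode (ones c.1, c.2) : List Bool).length = 6 * c.1 + 1 + 3 * c.2.length := by
        have e1 : ∀ l : List Bool, (bitEncode l : List Bool).length = 3 * l.length := by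
          intro l
          change (((l.map bitEncode).map delimit).flatten).length = _
          induction l with
          | nil => rfl
          | cons a l ih =>
            rw [List.map_cons, List.map_cons, List.flatten_cons, List.length_append, ih,
              List.length_cons, length_delimit]
            change 2 * ([a] : List Bool).length + 1 + _ = _
            simp only [List.length_singleton]
            ring
        change (delimit (bitEncode (ones c.1)) ++ bitEncode c.2).length = _
        rw [List.length_append, length_delimit, e1, e1, List.length_replicate]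
        ring
      rw [h1, Polynomial.eval_comp]
      have h2 := hp x
      beta_reduce at h2
      have h3 := eval_mono p (show sz x ≤ (4 * Polynomial.X + 1 : Polynomial ℕ).eval x.length by
        simpa using sz_listBool x)
      rw [hc.2]
      have h4 := hc.1
      omega
    · unfold ver
      simp only [hD', List.length_replicate]
      rw [Bool.and_eq_true, Bool.and_eq_true, decide_eq_true_iff, decide_eq_true_iff]
      refine ⟨hc, ?_⟩
      rw [List.all_eq_true]
      intro b hb
      obtain ⟨j, hj, rfl⟩ := List.mem_map.1 hb
      rw [List.mem_range] at hj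
      rw [S.mix_e]
      exact hs _ (mem_blk.2 ⟨j, hj, rfl⟩)
  · rintro ⟨w, _, hw⟩
    unfold ver at hw
    simp only at hw
    rw [Bool.and_eq_true, Bool.and_eq_true, decide_eq_true_iff, decide_eq_true_iff,
      List.all_eq_true] at hw
    refine ⟨((D w).1.length, (D w).2), mem_cand.2 hw.1, fun z hz => ?_⟩
    obtain ⟨b, hb, rfl⟩ := mem_blk.1 hz
    have := hw.2 _ (List.mem_map.2 ⟨b, List.mem_range.2 hb, rfl⟩)
    rwa [S.mix_e] at this

/-- The property of almost all oracles used in the proof. -/
def Good (S : Access) (A : List Bool → Bool) (FP Fr : (List Bool → Bool) → List Bool → List Bool)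
    (R : List Bool → Bool) : Prop :=
  (∀ n k, Θ FP Fr (mix S.c A R) (pr n) = some k → inB n k R) →
    ∃ n0, ∀ n ≥ n0, (∀ k, Θ FP Fr (mix S.c A R) (pr n) = some k → inB (2 ^ (n * n)) (k - 1) R) ∧
      inB n n R

theorem ae_Good (S : Access) (A : List Bool → Bool) : ∀ᵐ R ∂randomOracle, ∀ FP Fr, UT FP → UT Fr →
    Good S A FP Fr R := by
  have h1 : ∀ᵐ R ∂randomOracle, ∀ FP ∈ {F : (List Bool → Bool) → List Bool → List Bool | UT F},
      ∀ Fr ∈ {F : (List Bool → Bool) → List Bool → List Bool | UT F}, Good S A FP Fr R := by
    rw [ae_ball_iff countable_UT]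
    intro FP hP
    rw [ae_ball_iff countable_UT]
    intro Fr hr
    obtain ⟨T, hT, n1, hl, hQ⟩ := exists_stage S.c S.hc A hP hr
    have h2 := T.ae_good n1 hl hQ
    simp only [hT] at h2
    exact h2
  filter_upwards [h1] with R hR FP Fr hP hr using hR FP hP Fr hr

theorem main_proof (S : Access) {A R : List Bool → Bool} (hR : ∀ FP Fr, UT FP → UT Fr → Good S A FP Fr R)
    {L : DecisionProblem} (hL : IsNPHardOracle (mix S.c A R) L) {P : List Bool → List Bool}
    (hP : IsProofSystemOracle (mix S.c A R) L P) :
    ∃ Q, IsProofSystemOracle (mix S.c A R) L Q ∧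
      ¬ ∃ h, IsExpTimeOracle (mix S.c A R) h ∧ ∀ π, P (h π) = Q π := by
  obtain ⟨D, hD, hD'⟩ := Compat.dec (α := List Bool × List Bool)
  obtain ⟨f, hf, hfB⟩ := hL _ (hid_mem S hD hD' A R)
  obtain ⟨FP, hFP, hFP'⟩ := hP.1.exists_UT
  obtain ⟨Fr, hFr, hFr'⟩ := hf.exists_UT
  have hB : ∀ n k, L (f (cd n k)) = true ↔ inB n k R := by
    intro n k
    rw [← hfB, hid, decide_eq_true_iff, cd, hD']
    simp
  have hcons : ∀ n k, Θ FP Fr (mix S.c A R) (pr n) = some k → inB n k R := by
    intro n k h
    obtain ⟨_, e, he⟩ := Θ_some h
    rw [hFP', hFr'] at he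
    rw [← hB, ← show (pr n).1 = n from rfl, ← he]
    exact (hP.2 _).2 ⟨_, rfl⟩
  obtain ⟨n0, hn0⟩ := hR FP Fr hFP hFr hcons
  have hpos : 0 < 2 ^ (n0 * n0) := by positivity
  have hκ : ∀ N, 2 ^ (n0 * n0) + n0 + 1 ≤ N → inB N (κ FP Fr (mix S.c A R) N) R := by
    intro N hN
    unfold κ
    cases h : sqo N with
    | none => exact (hn0 N (by omega)).2
    | some n =>
      rcases sqo_some h with h1 | h1
      · subst h1
        have hn : n0 ≤ n := by
          by_contra hlt
          have : 2 ^ (n * n) ≤ 2 ^ (n0 * n0) :=
            Nat.pow_le_pow_right (by norm_num) (Nat.mul_self_le_mul_self (by omega))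
          omega
        simp only
        cases h2 : Θ FP Fr (mix S.c A R) (par (2 ^ (n * n)) n) with
        | none => exact (hn0 _ (by omega)).2
        | some k => exact (hn0 n hn).1 k h2
      · omega
  set N0 := 2 ^ (n0 * n0) + n0 + 1 with hN0
  refine ⟨sys FP Fr N0 (mix S.c A R), ⟨(sys_UT hFP hFr N0).isPolyTimeOracle _, fun y => ?_⟩, ?_⟩
  · constructor
    · intro hy
      obtain ⟨π, hπ⟩ := (hP.2 y).1 hy
      refine ⟨false :: π, ?_⟩
      simp [sys, hFP', hπ]
    · rintro ⟨π, rfl⟩
      unfold sys
      split_ifs with h1 h2
      · rw [hFr', hB]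
        exact hκ _ h1.2
      · rw [hFP']
        exact (hP.2 _).2 ⟨_, rfl⟩
      · rw [hFP']
        exact (hP.2 _).2 ⟨_, rfl⟩
  · rintro ⟨h, ⟨h', hh', hh⟩, hsim⟩
    obtain ⟨Fh, hFh, hFh'⟩ := hh'.exists_UT
    obtain ⟨e, Q, hUM⟩ := UM_spec hFh
    obtain ⟨n1, hn1⟩ := clock Q
    have hcap : ∀ n, N0 + e.1 + e.2 + n1 + 1 ≤ n →
        ∃ k ≤ κ FP Fr (mix S.c A R) n, Θ FP Fr (mix S.c A R) (pr n) = some k := by
      intro n hn
      obtain ⟨c1, c2, c3⟩ := hn1 n (by omega)
      have hκn : κ FP Fr (mix S.c A R) n ≤ n := by
        unfold κ
        cases h : sqo n with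
        | none => exact le_rfl
        | some m =>
          simp only
          cases h2 : Θ FP Fr (mix S.c A R) (par n m) with
          | none => exact le_rfl
          | some k =>
            have h3 : k ≤ m := (Θ_some h2).1
            rcases sqo_some h with h4 | h4
            · have h5 : m ≤ n := by
                rw [h4]
                rcases Nat.eq_zero_or_pos m with rfl | h6
                · exact Nat.zero_le _
                · have := lt_two_pow_sq h6
                  omega
              simp only
              omega
            · omega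
      refine Θ_le (z := pr n) hκn (e := e) (by change e.1 < n; omega) (by change e.2 < n; omega) ?_
      have h1 : UM (mix S.c A R) (e, (pr n).2.1, inp (pr n).1 (pr n).2.2) = h (true :: ones n) := by
        rw [c1]
        change UM (mix S.c A R) (e, ((pr n).2.1.1, (pr n).2.1.2), inp n (2 ^ (n + 1))) = _
        rw [hUM _ _ _ _ c2 c3, hFh', hh]
        simp [inp]
      rw [h1, hFP', hsim]
      unfold sys
      rw [if_pos ⟨rfl, by simp; omega⟩]
      simp [pr, par]
    -- infinite descent
    obtain ⟨k0, _, hk0⟩ := hcap _ le_rfl
    have key : ∀ j, ∃ n, N0 + e.1 + e.2 + n1 + 1 ≤ n ∧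
        ∃ k, Θ FP Fr (mix S.c A R) (pr n) = some k ∧ k + j ≤ k0 := by
      intro j
      induction j with
      | zero => exact ⟨_, le_rfl, k0, hk0, le_rfl⟩
      | succ j ih =>
        obtain ⟨n, hn, k, hk, hkj⟩ := ih
        have hk1 : 1 ≤ k := by
          rcases Nat.eq_zero_or_pos k with rfl | h0
          · exact absurd (hcons n 0 hk) (not_inB_zero n R)
          · exact h0
        have hn' : N0 + e.1 + e.2 + n1 + 1 ≤ 2 ^ (n * n) := by
          have := lt_two_pow_sq (n := n) (by omega)
          omega
        obtain ⟨l, hl, hl'⟩ := hcap _ hn'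
        rw [κ_eq FP Fr hk] at hl
        exact ⟨_, hn', l, hl', by omega⟩
    obtain ⟨_, _, k, _, hk⟩ := key (k0 + 1)
    omega

/-- Relative to an oracle with access to the random oracle `R`, no proof system `P` for a
language that is hard for `NP` simulates all others, not even by translations computable in
time `2^O(n)`. -/
theorem main (S : Access) (A : List Bool → Bool) : ∀ᵐ R ∂randomOracle, ∀ L : DecisionProblem,
    IsNPHardOracle (mix S.c A R) L → ∀ P, IsProofSystemOracle (mix S.c A R) L P →
      ∃ Q, IsProofSystemOracle (mix S.c A R) L Q ∧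
        ¬ ∃ h, IsExpTimeOracle (mix S.c A R) h ∧ ∀ π, P (h π) = Q π := by
  filter_upwards [ae_Good S A] with R hR L hL P hP using main_proof S hR hL hP

/-- Direct access. -/
def accR : Access := ⟨some, id, fun w z h => by simp at h; rw [h], PolyTime.id, fun _ => rfl⟩

/-- Access through a join. -/
def accJ : Access where
  c := fun w => match w with
    | true :: z => some z
    | _ => none
  e := fun z => true :: z
  hc := by
    intro w z h
    match w, h with
    | true :: y, h =>
      have : y = z := by simpa using h
      rw [this]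
      simp
  he := by fun_prop
  hce := fun _ => rfl

theorem mix_accR (A R : List Bool → Bool) : mix accR.c A R = R := rfl

theorem mix_accJ (A R : List Bool → Bool) : mix accJ.c (join A fun _ => false) R = join A R := by
  funext w
  match w with
  | [] => rfl
  | true :: _ => rfl
  | false :: _ => rfl

end Pool.Agent.ROr14
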