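import Pool.Agent.ROr14.Defs

/-!
# Events depending on finitely many coordinates of a random oracle
-/

set_option autoImplicit false

namespace Pool.Agent.ROr14

open MeasureTheory ProbabilityTheory Set

/-- The event `A` depends only on the coordinates in `S`. -/
def Dep (S : Finset (List Bool)) (A : Set (List Bool → Bool)) : Prop :=
  ∀ R R' : List Bool → Bool, (∀ z ∈ S, R z = R' z) → R ∈ A → R' ∈ A

theorem Dep.mono {S T : Finset (List Bool)} {A : Set (List Bool → Bool)} (h : Dep S A)
    (hST : S ⊆ T) : Dep T A := fun R R' hR hA => h R R' (fun z hz => hR z (hST hz)) hA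

theorem Dep.inter {S : Finset (List Bool)} {A B : Set (List Bool → Bool)} (hA : Dep S A)
    (hB : Dep S B) : Dep S (A ∩ B) := fun R R' hR h => ⟨hA R R' hR h.1, hB R R' hR h.2⟩

theorem Dep.union {S : Finset (List Bool)} {A B : Set (List Bool → Bool)} (hA : Dep S A)
    (hB : Dep S B) : Dep S (A ∪ B) := fun R R' hR h => h.imp (hA R R' hR) (hB R R' hR)

theorem Dep.compl {S : Finset (List Bool)} {A : Set (List Bool → Bool)} (hA : Dep S A) :
    Dep S Aᶜ := fun R R' hR h h' => h (hA R' R (fun z hz => (hR z hz).symm) h')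

theorem Dep.iInter {ι : Sort*} {S : Finset (List Bool)} {A : ι → Set (List Bool → Bool)}
    (hA : ∀ i, Dep S (A i)) : Dep S (⋂ i, A i) := fun R R' hR h =>
  mem_iInter.2 fun i => hA i R R' hR (mem_iInter.1 h i)

theorem Dep.iUnion {ι : Sort*} {S : Finset (List Bool)} {A : ι → Set (List Bool → Bool)}
    (hA : ∀ i, Dep S (A i)) : Dep S (⋃ i, A i) := fun R R' hR h => by
  obtain ⟨i, hi⟩ := mem_iUnion.1 h
  exact mem_iUnion.2 ⟨i, hA i R R' hR hi⟩

theorem dep_eq {S : Finset (List Bool)} {A : Set (List Bool → Bool)} (h : Dep S A) :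
    A = (fun R (z : S) => R z) ⁻¹' ((fun R (z : S) => R z) '' A) := by
  ext R
  constructor
  · intro hR
    exact ⟨R, hR, rfl⟩
  · rintro ⟨R', hR', hRR'⟩
    refine h R' R (fun z hz => ?_) hR'
    exact congrFun hRR' ⟨z, hz⟩

theorem Dep.measurableSet {S : Finset (List Bool)} {A : Set (List Bool → Bool)} (h : Dep S A) :
    MeasurableSet A := by
  rw [dep_eq h]
  refine MeasurableSet.preimage (Set.toFinite _).measurableSet ?_
  exact measurable_pi_lambda _ fun z => measurable_pi_apply _

theorem iIndepFun_eval : iIndepFun (fun (z : List Bool) (R : List Bool → Bool) => R z)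
    randomOracle := by
  unfold randomOracle
  exact iIndepFun_infinitePi (X := fun _ b => b) fun _ => measurable_id

/-- Events depending on disjoint sets of coordinates are independent. -/
theorem Dep.indep {S T : Finset (List Bool)} {A B : Set (List Bool → Bool)} (hA : Dep S A)
    (hB : Dep T B) (hST : Disjoint S T) :
    randomOracle (A ∩ B) = randomOracle A * randomOracle B := by
  have h := iIndepFun_eval.indepFun_finset S T hST fun z => measurable_pi_apply _
  have h1 := h.measure_inter_preimage_eq_mul ((fun R (z : S) => R z) '' A)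
    ((fun R (z : T) => R z) '' B) (Set.toFinite _).measurableSet (Set.toFinite _).measurableSet
  rwa [← dep_eq hA, ← dep_eq hB] at h1

/-- A cylinder fixing `m` coordinates has probability `2^-m`. -/
theorem measure_allTrue (S : Finset (List Bool)) :
    randomOracle {R | ∀ z ∈ S, R z = true} = (2⁻¹ : ENNReal) ^ S.card := by
  have h := Measure.infinitePi_pi (fun _ : List Bool => coin) (s := S) (t := fun _ => {true})
    (fun _ _ => measurableSet_singleton _)
  have h2 : (Set.pi (S : Set (List Bool)) fun _ => ({true} : Set Bool)) =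
      {R | ∀ z ∈ S, R z = true} := by
    ext R
    simp [Set.mem_pi]
  rw [h2] at h
  unfold randomOracle
  rw [h]
  have h3 : coin {true} = 2⁻¹ := by
    unfold coin
    rw [PMF.toMeasure_apply_singleton _ _ (measurableSet_singleton _)]
    simp [PMF.uniformOfFintype_apply]
  simp [h3]

theorem dep_allTrue (S : Finset (List Bool)) : Dep S {R | ∀ z ∈ S, R z = true} :=
  fun R R' hR h z hz => by rw [← hR z hz]; exact h z hz

/-- Probability that none of finitely many disjoint blocks of `m` coordinates is all true. -/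
theorem measure_noSuccess {ι : Type} [DecidableEq ι] (C : Finset ι) (b : ι → Finset (List Bool))
    (m : ℕ) (hb : ∀ i ∈ C, (b i).card = m) (hd : ∀ i ∈ C, ∀ j ∈ C, i ≠ j → Disjoint (b i) (b j)) :
    randomOracle {R | ∀ i ∈ C, ¬ ∀ z ∈ b i, R z = true} = (1 - (2⁻¹ : ENNReal) ^ m) ^ C.card := by
  induction C using Finset.induction_on with
  | empty => simp
  | insert i C hi ih =>
    have h1 : {R : List Bool → Bool | ∀ j ∈ insert i C, ¬ ∀ z ∈ b j, R z = true} =
        {R | ∀ z ∈ b i, R z = true}ᶜ ∩ {R | ∀ j ∈ C, ¬ ∀ z ∈ b j, R z = true} := by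
      ext R
      simp
    have h2 : Dep (C.biUnion b) {R : List Bool → Bool | ∀ j ∈ C, ¬ ∀ z ∈ b j, R z = true} := by
      intro R R' hR h j hj hz
      refine h j hj fun z hz' => ?_
      rw [hR z (Finset.mem_biUnion.2 ⟨j, hj, hz'⟩)]
      exact hz z hz'
    have h3 : Disjoint (b i) (C.biUnion b) := by
      rw [Finset.disjoint_biUnion_right]
      intro j hj
      exact hd i (Finset.mem_insert_self _ _) j (Finset.mem_insert_of_mem hj)
        (fun h => hi (h ▸ hj))
    rw [h1, (dep_allTrue (b i)).compl.indep h2 h3, ih (fun j hj => hb j (Finset.mem_insert_of_mem hj))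
      (fun j hj k hk => hd j (Finset.mem_insert_of_mem hj) k (Finset.mem_insert_of_mem hk)),
      prob_compl_eq_one_sub (dep_allTrue (b i)).measurableSet, measure_allTrue,
      hb i (Finset.mem_insert_self _ _), Finset.card_insert_of_notMem hi, pow_succ, mul_comm]

end Pool.Agent.ROr14
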