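import Pool.Agent.ROr14.Grow

/-!
# The bolder proof system, and the data of the stages
-/

set_option autoImplicit false

namespace Pool.Agent.ROr14

open Pool.Agent.PT Pool.Agent.TMB67 Pool.Agent.POpt67 Pool.Agent.POpt70
open N68a2faeb N793a5b8e N487b59b3

/-- The `n` with `N = 2^(n^2)`, if there is one. -/
def sqo (N : ℕ) : Option ℕ :=
  (List.range (N + 1)).find? fun i => decide (i * i = Nat.log 2 N) && decide (cp N (i * i) = N)

theorem sqo_polyTime : PolyTime sqo := by
  unfold sqo
  refine PolyTime.find? (l := fun N : ℕ => List.range (N + 1)) (PolyTime.range (by fun_prop))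
    (g := fun N i => decide (i * i = Nat.log 2 N) && decide (cp N (i * i) = N)) ?_
  have h1 : PolyTime (fun p : ℕ × ℕ => p.2 * p.2) := PolyTime.natMul (by fun_prop) (by fun_prop)
  have h2 : PolyTime (fun p : ℕ × ℕ => p.1) := by fun_prop
  exact PolyTime.and (PolyTime.decide_eq h1 (natLog_polyTime h2))
    (PolyTime.decide_eq (cp_polyTime h2 h1) h2)

theorem sqo_pow (n : ℕ) : sqo (2 ^ (n * n)) = some n := by
  have hP : ∀ i, (decide (i * i = Nat.log 2 (2 ^ (n * n))) &&
      decide (cp (2 ^ (n * n)) (i * i) = 2 ^ (n * n))) = true ↔ i = n := by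
    intro i
    rw [Nat.log_pow (by norm_num), Bool.and_eq_true, decide_eq_true_iff, decide_eq_true_iff]
    constructor
    · rintro ⟨h, _⟩
      exact Nat.mul_self_inj.1 h
    · rintro rfl
      exact ⟨rfl, by rw [cp_two_pow, min_self]⟩
  have hn : n < 2 ^ (n * n) + 1 := by
    rcases Nat.eq_zero_or_pos n with rfl | h
    · norm_num
    · have := lt_two_pow_sq h
      omega
  obtain ⟨l, hl⟩ : ∃ l, sqo (2 ^ (n * n)) = some l := by
    rw [← Option.isSome_iff_exists, sqo, List.find?_isSome]
    exact ⟨n, List.mem_range.2 hn, (hP n).2 rfl⟩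
  have := List.find?_some hl
  rw [hl, (hP l).1 this]

theorem sqo_some {N n : ℕ} (h : sqo N = some n) : N = 2 ^ (n * n) ∨ N = 0 := by
  rcases Nat.eq_zero_or_pos N with h0 | h0
  · exact Or.inr h0
  · left
    have h1 := List.find?_some h
    rw [Bool.and_eq_true, decide_eq_true_iff, decide_eq_true_iff] at h1
    rw [← h1.2, cp, ← h1.1, min_self]

section sys

variable (FP Fr : (List Bool → Bool) → List Bool → List Bool)

/-- The index used by the new system at scale `N`. -/
noncomputable def κ (X : List Bool → Bool) (N : ℕ) : ℕ :=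
  Option.casesOn (motive := fun _ => ℕ) (sqo N) N fun n =>
    Option.casesOn (motive := fun _ => ℕ) (Θ FP Fr X (par N n)) N fun k => k - 1

theorem κ_eq {X : List Bool → Bool} {n k : ℕ} (h : Θ FP Fr X (pr n) = some k) :
    κ FP Fr X (2 ^ (n * n)) = k - 1 := by
  unfold κ
  rw [sqo_pow]
  simp only
  rw [show par (2 ^ (n * n)) n = pr n from rfl, h]

/-- The new system. -/
noncomputable def sys (N0 : ℕ) (X : List Bool → Bool) (x : List Bool) : List Bool :=
  if (x.headD false = true ∧ N0 ≤ x.tail.length) then Fr X (cd x.tail.length (κ FP Fr X x.tail.length))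
  else if x.headD false = true then FP X [] else FP X x.tail

variable {FP Fr}

theorem κ_UT (hP : UT FP) (hr : UT Fr) : UT (κ FP Fr) := by
  have h1 : UT (fun X (N : ℕ) => (N, Θ FP Fr X (par N ((sqo N).getD 0)))) := by
    refine (UT.of (f := fun N : ℕ => N) (by fun_prop)).pair ((Θ_UT hP hr).pre
      (g := fun N => par N ((sqo N).getD 0)) ?_)
    exact par_polyTime (by fun_prop) (PolyTime.optionGetD sqo_polyTime (PolyTime.const 0))
  refine (h1.post (g := fun y : ℕ × Option ℕ => Option.casesOn (motive := fun _ => ℕ) (sqo y.1) y.1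
    fun _ => Option.casesOn (motive := fun _ => ℕ) y.2 y.1 fun k => k - 1) ?_).congr
    fun X N => ?_
  · refine PolyTime.optionCases (o := fun y : ℕ × Option ℕ => sqo y.1)
      (g := fun (y : ℕ × Option ℕ) (_ : ℕ) => Option.casesOn (motive := fun _ => ℕ) y.2 y.1
        fun k => k - 1) (sqo_polyTime.comp (by fun_prop)) (by fun_prop) ?_
    exact PolyTime.optionCases (o := fun y : (ℕ × Option ℕ) × ℕ => y.1.2)
      (g := fun _ (k : ℕ) => k - 1) (by fun_prop) (by fun_prop) (by fun_prop)
  · unfold κ
    cases h : sqo N <;> simp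

theorem sys_UT (hP : UT FP) (hr : UT Fr) (N0 : ℕ) : UT (sys FP Fr N0) := by
  have hh : PolyTime (fun x : List Bool => x.headD false) :=
    PolyTime.headD (by fun_prop) (by fun_prop)
  have ht : PolyTime (fun x : List Bool => x.tail.length) :=
    PolyTime.length (PolyTime.tail (by fun_prop))
  have hh' : PolyTime (fun x : List Bool => decide (x.headD false = true)) :=
    PolyTime.decide_eq_true hh
  have h1 : UT (fun X (x : List Bool) => (x.tail.length, κ FP Fr X x.tail.length)) :=
    (UT.of ht).pair ((κ_UT hP hr).pre ht)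
  have h2 : UT (fun X (x : List Bool) => Fr X (cd x.tail.length (κ FP Fr X x.tail.length))) :=
    hr.comp (h1.post (g := fun y : ℕ × ℕ => cd y.1 y.2)
      (cd_polyTime (by fun_prop) (by fun_prop)))
  exact UT.ite (P := fun x : List Bool => x.headD false = true ∧ N0 ≤ x.tail.length)
    (PolyTime.decide_and hh' (PolyTime.decide_le (by fun_prop) ht)) h2
    (UT.ite (P := fun x : List Bool => x.headD false = true) hh'
      (hP.pre (g := fun _ : List Bool => ([] : List Bool)) (PolyTime.const _))
      (hP.pre (g := fun x : List Bool => x.tail) (PolyTime.tail PolyTime.id)))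

/-- The data of the stages. -/
theorem exists_stage (c : List Bool → Option (List Bool))
    (hc : ∀ w z, c w = some z → z.length ≤ w.length) (A : List Bool → Bool) (hP : UT FP)
    (hr : UT Fr) :
    ∃ S : Stage, (∀ n R, S.θ n R = Θ FP Fr (mix c A R) (pr n)) ∧
      ∃ n1, (∀ n ≥ n1, ∀ m ≤ n, ∀ a : List Bool, a.length < S.M m →
        (S.s m a).length < 2 ^ (n * n)) ∧
        ∀ n ≥ n1, (n + 1) * S.Q n * 2 ^ n ≤ 2 ^ (n * n) := by
  obtain ⟨p, q, g, hq, hg, hΘ⟩ := Θ_UT hP hr
  obtain ⟨r, hr'⟩ := hq.pbdd
  have hans : ∀ (X : List Bool → Bool) (z : ℕ × (ℕ × ℕ) × ℕ) (m : ℕ),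
      ans X (fun a => q (z, a)) m = answers X q z m := by
    intro X z m
    induction m with
    | zero => rfl
    | succ m ih => rw [ans, answers, ih]
  refine ⟨⟨c, hc, A, fun n a => q (pr n, a), fun n => p.eval (sz (pr n)),
    fun n a => (g (pr n, a)).filter fun k => decide (k ≤ n), fun n a k h => ?_⟩, fun n R => ?_, ?_⟩
  · rw [Option.filter_eq_some_iff] at h
    simpa using h.2
  · unfold Stage.θ
    simp only
    rw [hans, ← hΘ (mix c A R) (pr n) _ le_rfl]
    cases h : Θ FP Fr (mix c A R) (pr n) with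
    | none => rfl
    | some k =>
      have h1 : k ≤ n := (Θ_some h).1
      simp [Option.filter, h1]
  · -- the polynomial bounding everything
    obtain ⟨a, ha⟩ := pow_bound (p + r.comp (Polynomial.X + 4 * p + 2))
    obtain ⟨n1, hn1⟩ := ex_growth (2 * (a + 1))
    have hM : ∀ n, p.eval (sz (pr n)) ≤ 2 ^ ((a + 1) * (ex n + 4 + 2)) := by
      intro n
      refine (eval_mono p (sz_pr_le n)).trans (le_trans ?_ (ha _))
      rw [Polynomial.eval_add]
      omega
    have hexp : ∀ n, (a + 1) * (ex n + 4 + 2) ≤ 2 * (a + 1) * (ex n + 5) := by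
      intro n
      rw [mul_comm 2 (a + 1), mul_assoc]
      gcongr
      omega
    refine ⟨n1 + 1, fun n hn m hm b hb => ?_, fun n hn => ?_⟩
    · simp only at hb ⊢
      have h1 : (q (pr m, b)).length ≤ 2 ^ ((a + 1) * (ex m + 4 + 2)) := by
        refine (length_le_sz _).trans ((hr' (pr m, b)).trans (le_trans ?_ (ha _)))
        rw [Polynomial.eval_add, Polynomial.eval_comp]
        refine (eval_mono r ?_).trans (Nat.le_add_left _ _)
        rw [sz_prod]
        have h2 := sz_listBool b
        have h3 := sz_pr_le m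
        have h4 := eval_mono p h3
        simp only [Polynomial.eval_add, Polynomial.eval_X, Polynomial.eval_mul,
          Polynomial.eval_ofNat]
        omega
      refine h1.trans_lt (Nat.pow_lt_pow_right (by norm_num) ?_)
      have h5 := hn1 n (by omega)
      have h6 := hexp m
      have h7 : 2 * (a + 1) * (ex m + 5) ≤ 2 * (a + 1) * (ex n + 5) := by
        have := ex_mono hm
        gcongr
      omega
    · have h1 : (∑ m ∈ Finset.range (n + 1), p.eval (sz (pr m))) ≤
          (n + 1) * 2 ^ ((a + 1) * (ex n + 4 + 2)) := by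
        refine (Finset.sum_le_card_nsmul _ _ (2 ^ ((a + 1) * (ex n + 4 + 2))) fun m hm => ?_).trans
          (by simp)
        refine (hM m).trans (Nat.pow_le_pow_right (by norm_num) ?_)
        have := ex_mono (n := n) (m := m) (by have := Finset.mem_range.1 hm; omega)
        gcongr
      have h2 : n + 1 ≤ 2 ^ n := Nat.lt_two_pow_self
      change (n + 1) * (∑ m ∈ Finset.range (n + 1), p.eval (sz (pr m))) * 2 ^ n ≤ _
      calc (n + 1) * (∑ m ∈ Finset.range (n + 1), p.eval (sz (pr m))) * 2 ^ n
          ≤ 2 ^ n * (2 ^ n * 2 ^ ((a + 1) * (ex n + 4 + 2))) * 2 ^ n := by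
            gcongr
            exact h1.trans (by gcongr)
        _ = 2 ^ (3 * n + (a + 1) * (ex n + 4 + 2)) := by
            rw [pow_add, pow_mul' 2 3 n]
            ring
        _ ≤ 2 ^ (n * n) := Nat.pow_le_pow_right (by norm_num) (by
            have h5 := hn1 n (by omega)
            have h6 := hexp n
            omega)

end sys

end Pool.Agent.ROr14
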